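import Pool.Agent.Lib.MP_7b6720_al.LB.EX.Numer

set_option autoImplicit false

/-!
# Exponential balls, 8: the main theorem
-/

namespace Pool.Agent.SymDiam.EX

open Equiv Finset Pool.Agent.SymDiam.H44 Pool.Agent.SymDiam.LB

theorem ball_of_le_one {n r : ℕ} (hn : n ≤ 1) (A : Set (Perm (Fin n))) (g : Perm (Fin n)) :
    InBall A r g := by
  have : g = 1 := by
    ext x
    have h : n = 0 ∨ n = 1 := by omega
    rcases h with h | h
    · subst h; exact x.elim0
    · subst h; exact congrArg _ (Subsingleton.elim _ _)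
  rw [this]
  exact InBall.one

/-- the hypothesis forces `n` to be large -/
theorem vac2 {n : ℕ} (hn : 1 ≤ n) (X : Finset (Perm (Fin n))) (hX : 2 ^ (200 * n) ≤ X.card) :
    200 ≤ Nat.log 2 n := by
  have h5 : X.card ≤ n ^ n := by
    refine le_trans (card_le_univ X) ?_
    rw [Fintype.card_perm, Fintype.card_fin]
    exact Nat.factorial_le_pow n
  have h6 : (2 ^ 200) ^ n ≤ n ^ n := by rw [← pow_mul]; exact hX.trans h5
  have h7 : 2 ^ 200 ≤ n := le_of_pow_le_pow_left₀ (by omega) (by omega) h6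
  exact Nat.le_log_of_pow_le (by omega) h7

/-- if the ball of radius `L` has at least `2 ^ (200 n)` elements then the diameter is at most
`L * n ^ 26` -/
theorem expo {n L : ℕ} {A : Set (Perm (Fin n))}
    (hA : alternatingGroup (Fin n) ≤ Subgroup.closure A) (hL : 1 ≤ L)
    (X : Finset (Perm (Fin n))) (hXb : ∀ x ∈ X, InBall A L x)
    (hX : 2 ^ (200 * n) ≤ X.card) :
    ∀ g ∈ Subgroup.closure A, InBall A (L * n ^ 26) g := by
  intro g hg
  rcases Nat.lt_or_ge n 2 with hn2 | hn2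
  · exact ball_of_le_one (by omega) A g
  have hp : ∀ i j : ℕ, i ≤ j → n ^ i ≤ n ^ j := fun i j hij => Nat.pow_le_pow_right (by omega) hij
  have h200 := vac2 (by omega) X hX
  obtain ⟨hpow, hpow'⟩ := logs (n := n) (by omega) rfl
  set lam := Nat.log 2 n with hlam
  have hbig : 2 ^ 200 ≤ n := (Nat.pow_le_pow_right (by omega) h200).trans hpow
  have hn9 : 90000 ≤ n := le_trans (by norm_num) hbig
  obtain ⟨W, hW, hWb⟩ := H96.mixQ H98.gens (H28.walk (H28.gap H28.poin)) H98.trans 4 n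
    (by omega) A hA
  have hR : n ^ (3 * 4 + 5) = n ^ 17 := rfl
  rw [hR] at hWb
  set R := n ^ 17 with hRdef
  obtain ⟨r, T0, ρ, β, Eb, hr, N⟩ := numer hW hWb X hXb hX rfl h200
  have h8 : lam ^ 8 ≤ n := (pow8 lam (by omega)).trans hpow
  -- a nonidentity generator
  have hgen : ∃ a ∈ A, a ≠ 1 := by
    by_contra hcon
    push Not at hcon
    have h1 : Subgroup.closure A = ⊥ := by
      rw [Subgroup.closure_eq_bot_iff]
      intro a ha
      exact Set.mem_singleton_iff.2 (hcon a ha)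
    have h2 : X ⊆ {1} := by
      intro x hx
      have := (hXb x hx).mem_closure
      rw [h1, Subgroup.mem_bot] at this
      simp [this]
    have h3 := card_le_card h2
    rw [card_singleton] at h3
    have h4 : 2 ≤ 2 ^ (200 * n) := by
      calc 2 = 2 ^ 1 := (pow_one _).symm
        _ ≤ 2 ^ (200 * n) := Nat.pow_le_pow_right (by omega) (by omega)
    omega
  obtain ⟨a, haA, ha1⟩ := hgen
  set m := n / lam with hm
  have hm1 : lam * m ≤ n := Nat.mul_div_le n lam
  have hm2 : n < lam * m + lam := by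
    have := Nat.lt_mul_div_succ n (show 0 < lam by omega)
    rw [Nat.mul_add, mul_one] at this
    exact this
  have hm3 : 200 * m ≤ n := (Nat.mul_le_mul_right _ h200).trans hm1
  have hln : 2 * lam ≤ n := by
    have h1 : lam ^ 2 ≤ lam ^ 8 := Nat.pow_le_pow_right (by omega) (by omega)
    have h2 : 2 * lam ≤ lam ^ 2 := by nlinarith
    omega
  have hsm : n ≤ 2 * lam * (m - 1) := by
    have hln4 : 4 * lam ≤ n := by
      have h1 : lam ^ 2 ≤ lam ^ 8 := Nat.pow_le_pow_right (by omega) (by omega)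
      have h2 : 4 * lam ≤ lam ^ 2 := by nlinarith
      omega
    have hmpos : 1 ≤ m := by
      rw [hm, Nat.le_div_iff_mul_le (by omega), one_mul]
      omega
    obtain ⟨m', hm'⟩ : ∃ m', m = m' + 1 := ⟨m - 1, by omega⟩
    have h1 : m - 1 = m' := by omega
    rw [h1]
    have h2 : lam * m = lam * m' + lam := by rw [hm']; ring
    have h3 : 2 * lam * m' = 2 * (lam * m') := by ring
    omega
  have hmpos : 1 ≤ m := by
    rcases Nat.eq_zero_or_pos m with h | h
    · rw [h] at hsm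
      simp at hsm
      omega
    · exact h
  obtain ⟨z, hz1, hzb, hz5⟩ := osmall hW hWb hXb N hmpos (by omega) a (InBall.of_mem haA) ha1
    (2 * lam) hsm
  refine (finish hn9 hA (hW.mono (by omega)) hWb z hz1 hzb hz5 g hg).mono ?_
  -- arithmetic
  have h2s : 2 ^ (2 * lam) ≤ n ^ 2 := by
    calc 2 ^ (2 * lam) = (2 ^ lam) ^ 2 := by rw [← pow_mul]; congr 1; ring
      _ ≤ n ^ 2 := Nat.pow_le_pow_left hpow _
  have hR1 : 1 ≤ R := Nat.one_le_pow _ _ (by omega)
  have hLR : 2 * L + 2 * R ≤ 4 * (L * R) := by nlinarith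
  have hr2 : r ≤ 4 * (L * n ^ 20) := by
    have h1 : 8 * (lam + 1) * (3 * lam + 5) ≤ n := by
      calc 8 * (lam + 1) * (3 * lam + 5) ≤ 8 * (2 * lam) * (4 * lam) :=
            Nat.mul_le_mul (by omega) (by omega)
        _ = 64 * lam ^ 2 := by ring
        _ ≤ lam * lam ^ 2 := Nat.mul_le_mul_right _ (by omega)
        _ = lam ^ 3 := by ring
        _ ≤ lam ^ 8 := Nat.pow_le_pow_right (by omega) (by omega)
        _ ≤ n := h8
    calc r ≤ (8 * (lam + 1) * n) * ((3 * lam + 5) * (n * (2 * L + 2 * R))) := hr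
      _ = (8 * (lam + 1) * (3 * lam + 5)) * (n * n * (2 * L + 2 * R)) := by ring
      _ ≤ n * (n * n * (4 * (L * R))) :=
          Nat.mul_le_mul h1 (Nat.mul_le_mul_left _ hLR)
      _ = 4 * (L * n ^ 20) := by rw [hRdef]; ring
  have hRL : R ≤ L * n ^ 20 := by
    calc R ≤ n ^ 20 := hp _ _ (by omega)
      _ ≤ L * n ^ 20 := Nat.le_mul_of_pos_left _ hL
  have hLL : L ≤ L * n ^ 20 := Nat.le_mul_of_pos_right _ (Nat.pow_pos (by omega))
  set l := 2 ^ (2 * lam) * (1 + 4 * (R + r) + 4 * L) with hl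
  have hl1 : l ≤ 25 * (L * n ^ 22) := by
    calc l ≤ n ^ 2 * (1 + 4 * (R + r) + 4 * L) := Nat.mul_le_mul_right _ h2s
      _ ≤ n ^ 2 * (25 * (L * n ^ 20)) := by
          apply Nat.mul_le_mul_left
          omega
      _ = 25 * (L * n ^ 22) := by ring
  have hRL2 : R ≤ L * n ^ 22 := hRL.trans (Nat.mul_le_mul_left _ (hp _ _ (by omega)))
  have e1 : 256 * l + 342 * R ≤ L * n ^ 23 := by
    calc 256 * l + 342 * R ≤ 6742 * (L * n ^ 22) := by omega
      _ ≤ n * (L * n ^ 22) := Nat.mul_le_mul_right _ (by omega)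
      _ = L * n ^ 23 := by ring
  have e2 : 4 * (n * (256 * l + 342 * R)) + 6 * R ≤ 10 * (L * n ^ 24) := by
    have h1 : n * (256 * l + 342 * R) ≤ L * n ^ 24 := by
      calc n * (256 * l + 342 * R) ≤ n * (L * n ^ 23) := Nat.mul_le_mul_left _ e1
        _ = L * n ^ 24 := by ring
    have h2 : R ≤ L * n ^ 24 := hRL.trans (Nat.mul_le_mul_left _ (hp _ _ (by omega)))
    omega
  calc n * (4 * (n * (256 * l + 342 * R)) + 6 * R) + 1 ≤ n * (10 * (L * n ^ 24)) + 1 := by
        have := Nat.mul_le_mul_left n e2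
        omega
    _ = 10 * (L * n ^ 25) + 1 := by ring
    _ ≤ 10 * (L * n ^ 25) + L * n ^ 25 := by
        have : 1 ≤ L * n ^ 25 := Nat.mul_pos hL (Nat.pow_pos (by omega))
        omega
    _ = 11 * (L * n ^ 25) := by ring
    _ ≤ n * (L * n ^ 25) := Nat.mul_le_mul_right _ (by omega)
    _ = L * n ^ 26 := by ring

end Pool.Agent.SymDiam.EX
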