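import Pool.Agent.Lib.MP_7b6720_al.LB.EX.Flat

set_option autoImplicit false

/-!
# Exponential balls, 3: almost all blocks can be added to a good set
-/

namespace Pool.Agent.SymDiam.EX

open Equiv Finset Pool.Agent.SymDiam.H44 Pool.Agent.SymDiam.LB

/-- the embedding of a quadruple of distinct points -/
def quad {n : ℕ} (a b c d : Fin n) (h : (a ≠ b ∧ a ≠ c ∧ a ≠ d) ∧ (b ≠ c ∧ b ≠ d) ∧ c ≠ d) :
    Fin 4 ↪ Fin n :=
  ⟨![a, b, c, d], by
    obtain ⟨⟨h1, h2, h3⟩, ⟨h4, h5⟩, h6⟩ := h
    intro i j hij
    fin_cases i <;> fin_cases j <;> simp_all [Matrix.cons_val_zero, Matrix.cons_val_one]⟩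

theorem maps_quad {n : ℕ} (a b c d a' b' c' d' : Fin n)
    (h : (a ≠ b ∧ a ≠ c ∧ a ≠ d) ∧ (b ≠ c ∧ b ≠ d) ∧ c ≠ d)
    (h' : (a' ≠ b' ∧ a' ≠ c' ∧ a' ≠ d') ∧ (b' ≠ c' ∧ b' ≠ d') ∧ c' ≠ d') (x : Perm (Fin n)) :
    Maps (quad a b c d h) (quad a' b' c' d' h') x ↔
      x a = a' ∧ x b = b' ∧ x c = c' ∧ x d = d' := by
  constructor
  · intro hm
    exact ⟨hm 0, hm 1, hm 2, hm 3⟩
  · rintro ⟨h0, h1, h2, h3⟩ i
    fin_cases i
    · exact h0
    · exact h1
    · exact h2
    · exact h3

theorem low4 {n : ℕ} (hn : 4 ≤ n) {W : Perm (Fin n) → ℝ} (hW : Mixing n 4 W)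
    (e e' : Fin 4 ↪ Fin n) : (1 : ℝ) / (n : ℝ) ^ 4 ≤ wt W e e' := by
  refine le_trans ?_ (hW.lower 4 le_rfl e e')
  have hn' : (4 : ℝ) ≤ n := by exact_mod_cast hn
  have h1 : ((n.descFactorial 4 : ℕ) : ℝ) ≤ (n : ℝ) ^ 3 * ((n : ℝ) - 1) := by
    have h2 : n.descFactorial 4 ≤ n ^ 3 * (n - 1) := by
      have h3 : n.descFactorial 4 = (n - 3) * ((n - 2) * ((n - 1) * n)) := by
        simp [Nat.descFactorial_succ]
      rw [h3]
      calc (n - 3) * ((n - 2) * ((n - 1) * n)) ≤ n * (n * ((n - 1) * n)) :=
            Nat.mul_le_mul (Nat.sub_le _ _) (Nat.mul_le_mul_right _ (Nat.sub_le _ _))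
        _ = n ^ 3 * (n - 1) := by ring
    calc ((n.descFactorial 4 : ℕ) : ℝ) ≤ ((n ^ 3 * (n - 1) : ℕ) : ℝ) := by exact_mod_cast h2
      _ = (n : ℝ) ^ 3 * ((n : ℝ) - 1) := by
          rw [Nat.cast_mul, Nat.cast_pow, Nat.cast_sub (by omega)]
          push_cast; ring
  have h4 : (0 : ℝ) < (n.descFactorial 4 : ℕ) := by
    exact_mod_cast Nat.descFactorial_pos.2 hn
  rw [div_le_div_iff₀ (by positivity) h4]
  have h5 : (1 - 1 / (n : ℝ)) * (n : ℝ) ^ 4 = (n : ℝ) ^ 3 * ((n : ℝ) - 1) := by
    field_simp
  rw [h5, one_mul]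
  exact h1

/-- the core of the argument on blocks -/
theorem bcore {n k t d g R L : ℕ} (hn : 4 ≤ n) {A : Set (Perm (Fin n))} {W : Perm (Fin n) → ℝ}
    (hW : Mixing n 4 W) (hWb : ∀ h, W h ≠ 0 → InBall A R h)
    (X : Finset (Perm (Fin n))) (hXb : ∀ x ∈ X, InBall A L x)
    {Eb : Finset (Fin n) → Finset (Fin n)} {l' : ℕ} (hS : Spl A t d (2 * L + 2 * R) l' Eb)
    (T : Finset (Fin n)) (ρ : ℝ) (hρ : ρ ≤ 1)
    (hρ2 : ρ * (n : ℝ) ^ 4 ≤ ((g * ((T.card * T.card - T.card) * (n - d - 3)) : ℕ) : ℝ))
    (hk : (1 - ρ) ^ k * (n : ℝ) ^ 2 < 1) (hX : n ^ (T.card + k * t) < X.card)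
    (S : Finset (Fin n)) (hSt : S.card + 2 ≤ t) (o1 o2 : Fin n → Fin n)
    (pre : Fin n → Finset (Fin n)) (U : Finset (Fin n))
    (hU : ∀ p ∈ U, (o1 p ≠ o2 p ∧ o1 p ≠ p ∧ o2 p ≠ p) ∧ pre p ⊆ {o1 p, o2 p} ∧
      p ∈ Eb (S ∪ pre p)) : U.card ≤ g := by
  classical
  by_contra hcon
  push Not at hcon
  obtain ⟨x, hx, y, hy, h, r, hh, hT, hSf, -, hK⟩ := kill (by omega) hW X T S
    (fun h r r' => ∃ p ∈ U, h p = r ∧ h (o1 p) ∈ T ∧ h (o2 p) ∈ T ∧ h⁻¹ r' ∉ Eb (S ∪ pre p))
    ρ hρ (by
      intro r hr r' hr' hrr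
      set V : Fin n → Finset (Fin n) := fun p =>
        univ \ (Eb (S ∪ pre p) ∪ {p, o1 p, o2 p}) with hV
      have hprec : ∀ p ∈ U, (S ∪ pre p).card ≤ t := by
        intro p hp
        have h1 := card_le_card (hU p hp).2.1
        have h2 : ({o1 p, o2 p} : Finset (Fin n)).card ≤ 2 := card_le_two
        have h3 := card_union_le S (pre p)
        omega
      have hVc : ∀ p ∈ U, n - d - 3 ≤ (V p).card := by
        intro p hp
        have h1 := hS.card _ (hprec p hp)
        have h2 : ({p, o1 p, o2 p} : Finset (Fin n)).card ≤ 3 := card_le_three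
        have h3 := card_union_le (Eb (S ∪ pre p)) {p, o1 p, o2 p}
        have h4 : (V p).card = n - (Eb (S ∪ pre p) ∪ {p, o1 p, o2 p}).card := by
          rw [hV]
          simp only
          rw [card_sdiff_of_subset (subset_univ _), card_univ, Fintype.card_fin]
        omega
      set Q : Finset (Σ _ : Fin n, (Fin n × Fin n) × Fin n) :=
        U.sigma (fun p => T.offDiag ×ˢ V p) with hQ
      have hQc : g * ((T.card * T.card - T.card) * (n - d - 3)) ≤ Q.card := by
        rw [hQ, card_sigma]
        calc g * ((T.card * T.card - T.card) * (n - d - 3))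
            ≤ U.card * ((T.card * T.card - T.card) * (n - d - 3)) :=
              Nat.mul_le_mul_right _ hcon.le
          _ = ∑ _p ∈ U, (T.card * T.card - T.card) * (n - d - 3) := by
              rw [sum_const, smul_eq_mul]
          _ ≤ _ := by
              refine sum_le_sum fun p hp => ?_
              rw [card_product, offDiag_card]
              exact Nat.mul_le_mul_left _ (hVc p hp)
      set P : (Σ _ : Fin n, (Fin n × Fin n) × Fin n) → Perm (Fin n) → Prop := fun q h =>
        h (o1 q.1) = q.2.1.1 ∧ h (o2 q.1) = q.2.1.2 ∧ h q.1 = r ∧ h q.2.2 = r' with hP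
      have hF : ∀ h : Perm (Fin n), (∑ q ∈ Q, if P q h then W h else 0) =
          ((Q.filter fun q => P q h).card : ℝ) * W h := by
        intro h
        rw [← sum_filter, sum_const, nsmul_eq_mul]
      have hone : ∀ h : Perm (Fin n), (Q.filter fun q => P q h).card ≤ 1 := by
        intro h
        rw [card_le_one]
        rintro ⟨p, ⟨a, b⟩, v⟩ h1 ⟨p', ⟨a', b'⟩, v'⟩ h2
        rw [mem_filter] at h1 h2
        obtain ⟨-, h11, h12, h13, h14⟩ := h1
        obtain ⟨-, h21, h22, h23, h24⟩ := h2
        simp only at h11 h12 h13 h14 h21 h22 h23 h24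
        have e1 : p = p' := h.injective (h13.trans h23.symm)
        have e2 : v = v' := h.injective (h14.trans h24.symm)
        subst e1
        subst e2
        rw [← h11, ← h12, ← h21, ← h22]
      refine ⟨fun h => ∑ q ∈ Q, if P q h then W h else 0, ?_, ?_, ?_⟩
      · intro h
        simp only [hF]
        have h1 : ((Q.filter fun q => P q h).card : ℝ) ≤ 1 := by exact_mod_cast hone h
        exact mul_le_of_le_one_left (hW.nonneg h) h1
      · intro h hh
        simp only [hF]
        have h1 : Q.filter (fun q => P q h) = ∅ := by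
          rw [filter_eq_empty_iff]
          rintro ⟨p, ⟨a, b⟩, v⟩ hq ⟨h11, h12, h13, h14⟩
          simp only at h11 h12 h13 h14
          rw [hQ, mem_sigma] at hq
          obtain ⟨hpU, hq⟩ := hq
          simp only at hpU hq
          rw [mem_product, mem_offDiag] at hq
          obtain ⟨⟨ha, hb, -⟩, hv⟩ := hq
          simp only at ha hb hv
          refine hh ⟨p, hpU, h13, by rw [h11]; exact ha, by rw [h12]; exact hb, ?_⟩
          rw [hV] at hv
          simp only at hv
          rw [mem_sdiff, mem_union, not_or] at hv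
          have h15 : h⁻¹ r' = v := by rw [Perm.inv_eq_iff_eq, h14]
          rw [h15]
          exact hv.2.1
        rw [h1]
        simp
      · have hn0 : (0 : ℝ) < n := by
          have : 0 < n := by omega
          exact_mod_cast this
        calc ρ ≤ (Q.card : ℝ) * ((1 : ℝ) / (n : ℝ) ^ 4) := by
              rw [mul_one_div, le_div_iff₀ (by positivity)]
              exact hρ2.trans (by exact_mod_cast hQc)
          _ = ∑ q ∈ Q, (1 : ℝ) / (n : ℝ) ^ 4 := by rw [sum_const, nsmul_eq_mul]
          _ ≤ ∑ q ∈ Q, ∑ h, (if P q h then W h else 0) := by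
              refine sum_le_sum ?_
              rintro ⟨p, ⟨a, b⟩, v⟩ hq
              rw [hQ, mem_sigma] at hq
              obtain ⟨hpU, hq⟩ := hq
              simp only at hpU hq
              rw [mem_product, mem_offDiag] at hq
              obtain ⟨⟨ha, hb, hab⟩, hv⟩ := hq
              simp only at ha hb hab hv
              obtain ⟨⟨o12, o1p, o2p⟩, -, -⟩ := hU p hpU
              rw [hV] at hv
              simp only at hv
              rw [mem_sdiff, mem_union, not_or] at hv
              have hv2 := hv.2.2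
              simp only [mem_insert, mem_singleton, not_or] at hv2
              obtain ⟨vp, v1, v2⟩ := hv2
              have h1 := low4 hn hW
                (quad (o1 p) (o2 p) p v ⟨⟨o12, o1p, Ne.symm v1⟩, ⟨o2p, Ne.symm v2⟩, Ne.symm vp⟩)
                (quad a b r r' ⟨⟨hab, fun h => hr (h ▸ ha), fun h => hr' (h ▸ ha)⟩,
                  ⟨fun h => hr (h ▸ hb), fun h => hr' (h ▸ hb)⟩, hrr⟩)
              unfold wt at h1
              simp_rw [maps_quad] at h1
              exact h1
          _ = ∑ h, ∑ q ∈ Q, (if P q h then W h else 0) := sum_comm)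
    hk (lt_of_le_of_lt (Nat.pow_le_pow_right (by omega)
      (Nat.add_le_add_left (Nat.mul_le_mul_left _ (by omega)) _)) hX)
  obtain ⟨p, hpU, h1, h2, h3, h4⟩ := hK
  obtain ⟨-, hpre, hpE⟩ := hU p hpU
  set z := x⁻¹ * y with hz
  have hzb : InBall A (2 * L) z := ((hXb x hx).inv.mul (hXb y hy)).mono (by omega)
  have hc : ∀ v, z (h v) = h v → cj z h v = v := by
    intro v hv
    unfold cj
    rw [Perm.mul_apply, Perm.mul_apply, hv]
    exact Equiv.symm_apply_apply h v
  have hct : (S ∪ pre p).card ≤ t := by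
    have h5 := card_le_card hpre
    have h6 : ({o1 p, o2 p} : Finset (Fin n)).card ≤ 2 := card_le_two
    have h7 := card_union_le S (pre p)
    omega
  have h8 := hS.inv _ hct (cj z h) ((hzb.cj (hWb h hh)).mono (by omega)) (by
    intro v hv
    rcases mem_union.1 hv with hv | hv
    · exact hc v (hSf v hv)
    · have h9 := hpre hv
      rw [mem_insert, mem_singleton] at h9
      rcases h9 with h9 | h9
      · rw [h9]; exact hc _ (hT _ h2)
      · rw [h9]; exact hc _ (hT _ h3)) p hpE
  apply h4
  have h10 : cj z h p = h⁻¹ (z r) := by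
    unfold cj
    rw [Perm.mul_apply, Perm.mul_apply, h1]
  rw [← h10]
  exact h8

/-- a system of blocks of sizes three and one, with at most `u` blocks of size one -/
structure Blk {n : ℕ} (blk : Fin n → Finset (Fin n)) (u : ℕ) : Prop where
  self : ∀ p, p ∈ blk p
  eq : ∀ p q, q ∈ blk p → blk q = blk p
  card : ∀ p, (blk p).card = 1 ∨ (blk p).card = 3
  one : (univ.filter fun p => (blk p).card = 1).card ≤ u

/-- unions of blocks -/
def Cl {n : ℕ} (blk : Fin n → Finset (Fin n)) (S : Finset (Fin n)) : Prop :=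
  ∀ p ∈ S, blk p ⊆ S

/-- adding a block to a good set, in increasing order -/
theorem good_union {n : ℕ} {Eb : Finset (Fin n) → Finset (Fin n)} (S Q : Finset (Fin n))
    (hS : Good Eb S) (hd : ∀ p ∈ Q, p ∉ S)
    (hQ : ∀ p ∈ Q, p ∉ Eb (S ∪ Q.filter fun x => x < p)) : Good Eb (S ∪ Q) := by
  have h1 : ∀ m : ℕ, Good Eb (S ∪ Q.filter fun x => x.val < m) := by
    intro m
    induction m with
    | zero => simpa using hS
    | succ m ih =>
        by_cases hm : ∃ p ∈ Q, p.val = m
        · obtain ⟨p, hp, hpm⟩ := hm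
          have h2 : (S ∪ Q.filter fun x => x.val < m + 1) =
              insert p (S ∪ Q.filter fun x => x.val < m) := by
            ext v
            simp only [mem_union, mem_filter, mem_insert]
            constructor
            · rintro (h | ⟨h, h'⟩)
              · exact Or.inr (Or.inl h)
              · rcases Nat.lt_or_ge v.val m with h3 | h3
                · exact Or.inr (Or.inr ⟨h, h3⟩)
                · left
                  apply Fin.ext
                  omega
            · rintro (h | h | ⟨h, h'⟩)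
              · rw [h]; exact Or.inr ⟨hp, by omega⟩
              · exact Or.inl h
              · exact Or.inr ⟨h, by omega⟩
          rw [h2]
          refine Good.insert _ p ih ?_ ?_
          · rw [mem_union, mem_filter, not_or]
            refine ⟨hd p hp, fun h => ?_⟩
            omega
          · have h3 := hQ p hp
            have h4 : (Q.filter fun x => x < p) = Q.filter fun x => x.val < m := by
              refine filter_congr fun v _ => ?_
              rw [Fin.lt_def, hpm]
            rw [h4] at h3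
            exact h3
        · have h2 : (Q.filter fun x => x.val < m + 1) = Q.filter fun x => x.val < m := by
            refine filter_congr fun v hv => ?_
            constructor
            · intro h
              rcases Nat.lt_or_ge v.val m with h3 | h3
              · exact h3
              · exact absurd ⟨v, hv, by omega⟩ hm
            · intro h
              omega
          rw [h2]
          exact ih
  have h2 := h1 n
  have h3 : (Q.filter fun x => x.val < n) = Q := by
    rw [filter_eq_self]
    exact fun v _ => v.isLt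
  rwa [h3] at h2

open Classical in
/-- almost all blocks can be added to a good set -/
theorem bgood {n k t d g R L u : ℕ} (hn : 4 ≤ n) {A : Set (Perm (Fin n))} {W : Perm (Fin n) → ℝ}
    (hW : Mixing n 4 W) (hWb : ∀ h, W h ≠ 0 → InBall A R h)
    (X : Finset (Perm (Fin n))) (hXb : ∀ x ∈ X, InBall A L x)
    {Eb : Finset (Fin n) → Finset (Fin n)} {l' : ℕ} (hS : Spl A t d (2 * L + 2 * R) l' Eb)
    (T : Finset (Fin n)) (ρ : ℝ) (hρ : ρ ≤ 1)
    (hρ2 : ρ * (n : ℝ) ^ 4 ≤ ((g * ((T.card * T.card - T.card) * (n - d - 3)) : ℕ) : ℝ))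
    (hk : (1 - ρ) ^ k * (n : ℝ) ^ 2 < 1) (hX : n ^ (T.card + k * t) < X.card)
    {blk : Fin n → Finset (Fin n)} (hb : Blk blk u)
    (S : Finset (Fin n)) (hSt : S.card + 2 ≤ t) (hSg : Good Eb S) (hSc : Cl blk S) :
    (univ.filter fun q => q ∉ S ∧ ¬ Good Eb (S ∪ blk q)).card ≤ 3 * (d + g) := by
  set pre : Fin n → Finset (Fin n) := fun p => (blk p).filter fun x => x < p with hpre
  set U1 : Finset (Fin n) := univ.filter fun p => (blk p).card = 3 ∧ p ∈ Eb (S ∪ pre p) with hU1
  have hU1c : U1.card ≤ g := by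
    have hex : ∀ p : Fin n, ∃ o : Fin n × Fin n, (blk p).card = 3 →
        ((o.1 ≠ o.2 ∧ o.1 ≠ p ∧ o.2 ≠ p) ∧ pre p ⊆ {o.1, o.2}) := by
      intro p
      by_cases h3 : (blk p).card = 3
      · have h4 : ((blk p).erase p).card = 2 := by
          rw [card_erase_of_mem (hb.self p), h3]
        obtain ⟨a, b, hab, he⟩ := card_eq_two.1 h4
        refine ⟨(a, b), fun _ => ⟨⟨hab, ?_, ?_⟩, ?_⟩⟩
        · have : a ∈ (blk p).erase p := by rw [he]; simp
          exact (mem_erase.1 this).1
        · have : b ∈ (blk p).erase p := by rw [he]; simp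
          exact (mem_erase.1 this).1
        · simp only
          rw [← he]
          intro v hv
          rw [hpre] at hv
          simp only at hv
          rw [mem_filter] at hv
          rw [mem_erase]
          exact ⟨ne_of_lt hv.2, hv.1⟩
      · exact ⟨(p, p), fun h => absurd h h3⟩
    choose o ho using hex
    refine bcore hn hW hWb X hXb hS T ρ hρ hρ2 hk hX S hSt (fun p => (o p).1) (fun p => (o p).2)
      pre U1 ?_
    intro p hp
    rw [hU1, mem_filter] at hp
    exact ⟨(ho p hp.2.1).1, (ho p hp.2.1).2, hp.2.2⟩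
  have hU2 : (univ.filter fun q => q ∉ S ∧ ¬ Good Eb (S ∪ blk q)) ⊆
      (Eb S ∪ U1).biUnion blk := by
    intro q hq
    rw [mem_filter] at hq
    obtain ⟨-, hqS, hqG⟩ := hq
    rw [mem_biUnion]
    by_contra hcon
    push Not at hcon
    have hmem : ∀ p, p ∈ blk q → q ∈ blk p := fun p hp => by
      rw [hb.eq q p hp]; exact hb.self q
    apply hqG
    apply good_union S (blk q) hSg
    · intro p hp hpS
      exact hqS (hSc p hpS (hmem p hp))
    · intro p hp hpE
      have h5 : p ∉ Eb S ∪ U1 := fun h => hcon p h (hmem p hp)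
      rw [mem_union, not_or] at h5
      obtain ⟨h6, h7⟩ := h5
      have h8 : blk p = blk q := hb.eq q p hp
      rcases hb.card p with h9 | h9
      · apply h6
        have h10 : (blk q).filter (fun x => x < p) = ∅ := by
          rw [← h8]
          obtain ⟨a, ha⟩ := card_eq_one.1 h9
          have h11 := hb.self p
          rw [ha, mem_singleton] at h11
          rw [ha, filter_eq_empty_iff]
          intro v hv
          rw [mem_singleton] at hv
          rw [hv, h11]
          exact lt_irrefl _
        rw [h10, union_empty] at hpE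
        exact hpE
      · apply h7
        rw [hU1, mem_filter]
        refine ⟨mem_univ _, h9, ?_⟩
        rw [hpre]
        simp only
        rw [h8]
        exact hpE
  refine (card_le_card hU2).trans (card_biUnion_le.trans ?_)
  have h3 : ∀ p ∈ Eb S ∪ U1, (blk p).card ≤ 3 := by
    intro p _
    rcases hb.card p with h | h <;> omega
  refine (sum_le_sum h3).trans ?_
  rw [sum_const, smul_eq_mul]
  have h4 := card_union_le (Eb S) U1
  have h5 := hS.card S (by omega)
  omega

end Pool.Agent.SymDiam.EX
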