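import Pool.Agent.Lib.MP_7b6720_al.LB.EX.Blk

set_option autoImplicit false

/-!
# Exponential balls, 4: blocks from the conjugates of `w`
-/

namespace Pool.Agent.SymDiam.EX

open Equiv Finset Pool.Agent.SymDiam.H44 Pool.Agent.SymDiam.LB

/-- growth of the set of linked points -/
theorem lsteps {n : ℕ} (hn : 2 ≤ n) {W : Perm (Fin n) → ℝ} (hW : Mixing n 3 W) (w : Perm (Fin n))
    (hw : (n : ℝ) ≤ 5 * (w.support.card : ℝ)) (T : Finset (Fin n)) (lam : ℝ)
    (hT : (n : ℝ) ≤ lam * (T.card : ℝ)) (hT1 : 1 ≤ T.card) (k : ℕ) :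
    ∃ (hs : Fin k → Perm (Fin n)) (S : Finset (Fin n)), (∀ i, W (hs i) ≠ 0) ∧
      (∀ p ∈ S, ∃ t ∈ T, ∀ g : Perm (Fin n),
        (∀ i, g * cj w (hs i) = cj w (hs i) * g) → (g p = p ↔ g t = t)) ∧
      1 ≤ S.card ∧ (Sᶜ.card : ℝ) * (6 / 5) ^ k ≤ lam * (S.card : ℝ) := by
  induction k with
  | zero =>
      refine ⟨Fin.elim0, T, fun i => i.elim0, fun p hp => ⟨p, hp, fun _ _ => Iff.rfl⟩, hT1, ?_⟩
      rw [pow_zero, mul_one]
      refine le_trans ?_ hT
      have := card_le_univ (Tᶜ)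
      rw [Fintype.card_fin] at this
      exact_mod_cast this
  | succ k ih =>
      obtain ⟨hs, S, h1, h2, h3, h4⟩ := ih
      obtain ⟨h, hh, hc⟩ := step hn hW w hw S lam _ h4 (by positivity) h3
      refine ⟨Fin.cons h hs, S ∪ S.image (cj w h), ?_, ?_, ?_, ?_⟩
      · intro i
        refine Fin.cases ?_ (fun j => ?_) i
        · simpa using hh
        · simpa using h1 j
      · intro x hx
        rcases mem_union.1 hx with hx | hx
        · obtain ⟨t, ht, hg⟩ := h2 x hx
          exact ⟨t, ht, fun g hcomm => hg g (fun i => by simpa using hcomm i.succ)⟩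
        · obtain ⟨y, hy, rfl⟩ := mem_image.1 hx
          obtain ⟨t, ht, hg⟩ := h2 y hy
          refine ⟨t, ht, fun g hcomm => ?_⟩
          rw [← hg g (fun i => by simpa using hcomm i.succ)]
          have h6 : g * cj w h = cj w h * g := by simpa using hcomm 0
          have h7 := congrArg (fun p : Perm (Fin n) => p y) h6
          simp only [Perm.mul_apply] at h7
          rw [h7]
          exact (cj w h).injective.eq_iff
      · exact h3.trans (card_le_card subset_union_left)
      · rw [pow_succ]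
        exact hc

/-- cutting the fibres of a map into blocks -/
theorem cut {n : ℕ} (c : Fin n → Fin n) (m : ℕ) (hm : (univ.image c).card ≤ m) :
    ∃ blk : Fin n → Finset (Fin n), Blk blk (2 * m) ∧ ∀ p, ∀ q ∈ blk p, c q = c p := by
  classical
  set Fam : Finset (Finset (Fin n)) → Prop := fun F => (∀ B ∈ F, B.card = 3) ∧
    (∀ B ∈ F, ∀ p ∈ B, ∀ q ∈ B, c q = c p) ∧
    (∀ B ∈ F, ∀ B' ∈ F, ∀ p, p ∈ B → p ∈ B' → B = B') with hFam
  obtain ⟨F, hF, hmax⟩ := exists_max_image (univ.filter Fam) card ⟨∅, by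
    rw [mem_filter]
    refine ⟨mem_univ _, ?_, ?_, ?_⟩ <;> simp⟩
  rw [mem_filter] at hF
  obtain ⟨-, hF1, hF2, hF3⟩ := hF
  set U : Finset (Fin n) := univ.filter fun p => ∀ B ∈ F, p ∉ B with hU
  have hUc : U.card ≤ 2 * m := by
    by_contra hcon
    push Not at hcon
    obtain ⟨y, -, hy⟩ := exists_lt_card_fiber_of_mul_lt_card_of_maps_to (s := U)
      (t := univ.image c) (f := c) (n := 2) (fun a _ => mem_image_of_mem _ (mem_univ _)) (by
        calc (univ.image c).card * 2 ≤ m * 2 := Nat.mul_le_mul_right _ hm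
          _ < U.card := by omega)
    obtain ⟨B, hB, hBc⟩ := exists_subset_card_eq (show 3 ≤ (U.filter fun x => c x = y).card from hy)
    have hBU : ∀ p ∈ B, p ∈ U ∧ c p = y := fun p hp => mem_filter.1 (hB hp)
    have hBF : B ∉ F := by
      intro h
      obtain ⟨p, hp⟩ : B.Nonempty := by rw [← card_pos]; omega
      exact (mem_filter.1 (hBU p hp).1).2 B h hp
    have h1 := hmax (insert B F) (by
      rw [mem_filter]
      refine ⟨mem_univ _, ?_, ?_, ?_⟩
      · intro B' hB'
        rcases mem_insert.1 hB' with h | h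
        · rw [h]; exact hBc
        · exact hF1 B' h
      · intro B' hB' p hp q hq
        rcases mem_insert.1 hB' with h | h
        · rw [h] at hp hq
          rw [(hBU p hp).2, (hBU q hq).2]
        · exact hF2 B' h p hp q hq
      · intro B1 hB1 B2 hB2 p hp1 hp2
        rcases mem_insert.1 hB1 with h | h
        · rcases mem_insert.1 hB2 with h' | h'
          · rw [h, h']
          · rw [h] at hp1
            exact absurd hp2 ((mem_filter.1 (hBU p hp1).1).2 B2 h')
        · rcases mem_insert.1 hB2 with h' | h'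
          · rw [h'] at hp2
            exact absurd hp1 ((mem_filter.1 (hBU p hp2).1).2 B1 h)
          · exact hF3 B1 h B2 h' p hp1 hp2)
    rw [card_insert_of_notMem hBF] at h1
    omega
  set blk : Fin n → Finset (Fin n) := fun p =>
    univ.filter fun q => q = p ∨ ∃ B ∈ F, p ∈ B ∧ q ∈ B with hblk
  have hcov : ∀ B ∈ F, ∀ p ∈ B, blk p = B := by
    intro B hB p hp
    ext q
    rw [hblk]
    simp only [mem_filter, mem_univ, true_and]
    constructor
    · rintro (h | ⟨B', hB', h1, h2⟩)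
      · rw [h]; exact hp
      · rw [hF3 B hB B' hB' p hp h1]; exact h2
    · intro h
      exact Or.inr ⟨B, hB, hp, h⟩
  have hunc : ∀ p ∈ U, blk p = {p} := by
    intro p hp
    rw [hU, mem_filter] at hp
    ext q
    rw [hblk]
    simp only [mem_filter, mem_univ, true_and, mem_singleton]
    constructor
    · rintro (h | ⟨B', hB', h1, h2⟩)
      · exact h
      · exact absurd h1 (hp.2 B' hB')
    · intro h
      exact Or.inl h
  have hcase : ∀ p, p ∈ U ∨ ∃ B ∈ F, p ∈ B := by
    intro p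
    by_cases h : ∃ B ∈ F, p ∈ B
    · exact Or.inr h
    · left
      push Not at h
      rw [hU, mem_filter]
      exact ⟨mem_univ _, h⟩
  refine ⟨blk, ⟨?_, ?_, ?_, ?_⟩, ?_⟩
  · intro p
    rw [hblk]
    simp
  · intro p q hq
    rcases hcase p with h | ⟨B, hB, hp⟩
    · rw [hunc p h, mem_singleton] at hq
      rw [hq]
    · rw [hcov B hB p hp] at hq ⊢
      exact hcov B hB q hq
  · intro p
    rcases hcase p with h | ⟨B, hB, hp⟩
    · left; rw [hunc p h, card_singleton]
    · right; rw [hcov B hB p hp, hF1 B hB]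
  · refine le_trans (card_le_card ?_) hUc
    intro p hp
    rw [mem_filter] at hp
    rcases hcase p with h | ⟨B, hB, hpB⟩
    · exact h
    · have h1 := hp.2
      rw [hcov B hB p hpB, hF1 B hB] at h1
      omega
  · intro p q hq
    rcases hcase p with h | ⟨B, hB, hp⟩
    · rw [hunc p h, mem_singleton] at hq
      rw [hq]
    · rw [hcov B hB p hp] at hq
      exact hF2 B hB p hp q hq

/-- the blocks of the conjugates of `w` -/
theorem blocks {n : ℕ} (hn : 2 ≤ n) {W : Perm (Fin n) → ℝ} (hW : Mixing n 3 W) (w : Perm (Fin n))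
    (hw : (n : ℝ) ≤ 5 * (w.support.card : ℝ)) (k τ v : ℕ) (hτ1 : 1 ≤ τ) (hτn : τ ≤ n)
    (hv : (n : ℝ) * n ≤ τ * v * (6 / 5) ^ k) :
    ∃ hs : Fin k → Perm (Fin n), (∀ i, W (hs i) ≠ 0) ∧ ∃ blk : Fin n → Finset (Fin n),
      Blk blk (2 * (τ + v)) ∧ ∀ p, ∀ q ∈ blk p, ∀ g : Perm (Fin n),
        (∀ i, g * cj w (hs i) = cj w (hs i) * g) → (g q = q ↔ g p = p) := by
  classical
  obtain ⟨T, hT⟩ : ∃ T : Finset (Fin n), T.card = τ :=
    (exists_subset_card_eq (s := (univ : Finset (Fin n))) (by simpa using hτn)).imp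
      fun T hT => hT.2
  have hτ' : (1 : ℝ) ≤ τ := by exact_mod_cast hτ1
  have hn' : (2 : ℝ) ≤ n := by exact_mod_cast hn
  obtain ⟨hs, S, h1, h2, h3, h4⟩ := lsteps hn hW w hw T ((n : ℝ) / τ)
    (by rw [hT, div_mul_cancel₀]; positivity) (by omega) k
  have hSc : Sᶜ.card ≤ v := by
    have h5 : (S.card : ℝ) ≤ n := by
      have := card_le_univ S
      rw [Fintype.card_fin] at this
      exact_mod_cast this
    have h6 : (Sᶜ.card : ℝ) * (6 / 5) ^ k * τ ≤ n * n := by
      have h7 : (n : ℝ) / τ * S.card * τ = n * S.card := by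
        field_simp
      calc (Sᶜ.card : ℝ) * (6 / 5) ^ k * τ ≤ (n : ℝ) / τ * S.card * τ :=
            mul_le_mul_of_nonneg_right h4 (by linarith)
        _ = n * S.card := h7
        _ ≤ n * n := mul_le_mul_of_nonneg_left h5 (by linarith)
    have h8 : (Sᶜ.card : ℝ) * ((6 / 5) ^ k * τ) ≤ v * ((6 / 5) ^ k * τ) := by
      calc (Sᶜ.card : ℝ) * ((6 / 5) ^ k * τ) = (Sᶜ.card : ℝ) * (6 / 5) ^ k * τ := by ring
        _ ≤ n * n := h6
        _ ≤ τ * v * (6 / 5) ^ k := hv
        _ = v * ((6 / 5) ^ k * τ) := by ring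
    have h9 : (Sᶜ.card : ℝ) ≤ v := le_of_mul_le_mul_right h8 (by positivity)
    exact_mod_cast h9
  have hc : ∀ p : Fin n, ∃ t : Fin n, t ∈ T ∪ Sᶜ ∧ ∀ g : Perm (Fin n),
      (∀ i, g * cj w (hs i) = cj w (hs i) * g) → (g p = p ↔ g t = t) := by
    intro p
    by_cases hp : p ∈ S
    · obtain ⟨t, ht, hg⟩ := h2 p hp
      exact ⟨t, mem_union_left _ ht, hg⟩
    · exact ⟨p, mem_union_right _ (mem_compl.2 hp), fun _ _ => Iff.rfl⟩
  choose c hc1 hc2 using hc
  obtain ⟨blk, hb1, hb2⟩ := cut c (τ + v) (by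
    calc (univ.image c).card ≤ (T ∪ Sᶜ).card := card_le_card (by
            intro y hy
            obtain ⟨p, -, rfl⟩ := mem_image.1 hy
            exact hc1 p)
      _ ≤ T.card + Sᶜ.card := card_union_le _ _
      _ ≤ τ + v := by omega)
  refine ⟨hs, h1, blk, hb1, fun p q hq g hg => ?_⟩
  rw [hc2 q g hg, hc2 p g hg, hb2 p q hq]

end Pool.Agent.SymDiam.EX
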