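import Pool.Agent.Lib.MP_7b6720_al.LB.EX.Cls

set_option autoImplicit false

/-!
# Exponential balls, 5: the exploration
-/

namespace Pool.Agent.SymDiam.EX

open Equiv Finset Pool.Agent.SymDiam.H44 Pool.Agent.SymDiam.LB

/-- sets closed under the blocks and under the blocks transported by `x` -/
def Clx {n : ℕ} (blk : Fin n → Finset (Fin n)) (x : Perm (Fin n)) (C : Finset (Fin n)) : Prop :=
  ∀ p ∈ C, blk p ⊆ C ∧ ∀ s ∈ blk (x p), x⁻¹ s ∈ C

/-- there is a small closed set containing `D` and the preimage of `E` -/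
def EvP {n : ℕ} (blk : Fin n → Finset (Fin n)) (b : ℕ) (D E : Finset (Fin n))
    (x : Perm (Fin n)) : Prop :=
  ∃ C, Clx blk x C ∧ D ⊆ C ∧ (∀ s ∈ E, x⁻¹ s ∈ C) ∧ C.card ≤ b

open Classical in
/-- the elements which agree with `S` and have a small closed set containing `D` and the preimage
of `E` -/
noncomputable def Ev {n : ℕ} (blk : Fin n → Finset (Fin n)) (A : Set (Perm (Fin n))) (r b : ℕ)
    (S : Finset (Fin n × Fin n)) (D E : Finset (Fin n)) : Finset (Perm (Fin n)) :=
  (agr A r S).filter fun x => EvP blk b D E x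

theorem mem_Ev {n : ℕ} {blk : Fin n → Finset (Fin n)} {A : Set (Perm (Fin n))} {r b : ℕ}
    {S : Finset (Fin n × Fin n)} {D E : Finset (Fin n)} {x : Perm (Fin n)} :
    x ∈ Ev blk A r b S D E ↔ (InBall A r x ∧ ∀ e ∈ S, x e.1 = e.2) ∧
      ∃ C, Clx blk x C ∧ D ⊆ C ∧ (∀ s ∈ E, x⁻¹ s ∈ C) ∧ C.card ≤ b := by
  classical
  unfold Ev agr
  rw [mem_filter, mem_filter, mem_ball]
  exact Iff.rfl

theorem Ev_swap {n : ℕ} (blk : Fin n → Finset (Fin n)) (A : Set (Perm (Fin n))) (r b : ℕ)
    (S : Finset (Fin n × Fin n)) (D E : Finset (Fin n)) :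
    (Ev blk A r b S D E).card ≤ (Ev blk A r b (S.image Prod.swap) E D).card := by
  classical
  refine card_le_card_of_injOn (fun x => x⁻¹) ?_ (fun x _ y _ h => inv_injective h)
  intro x hx
  rw [mem_coe, mem_Ev] at hx ⊢
  obtain ⟨⟨h1, h2⟩, C, h3, h4, h5, h6⟩ := hx
  refine ⟨⟨h1.inv, ?_⟩, C.image x, ?_, ?_, ?_, ?_⟩
  · rintro ⟨a, b⟩ he
    rw [mem_image] at he
    obtain ⟨⟨a', b'⟩, he, heq⟩ := he
    simp only [Prod.swap_prod_mk, Prod.mk.injEq] at heq
    obtain ⟨rfl, rfl⟩ := heq
    simp only
    rw [Perm.inv_eq_iff_eq]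
    exact (h2 _ he).symm
  · intro p hp
    obtain ⟨q, hq, rfl⟩ := mem_image.1 hp
    obtain ⟨h7, h8⟩ := h3 q hq
    refine ⟨?_, ?_⟩
    · intro s hs
      rw [mem_image]
      exact ⟨x⁻¹ s, h8 s hs, Equiv.apply_symm_apply x s⟩
    · intro s hs
      have h9 : x⁻¹ (x q) = q := Equiv.symm_apply_apply x q
      rw [h9] at hs
      rw [inv_inv]
      exact mem_image_of_mem _ (h7 hs)
  · intro s hs
    rw [mem_image]
    exact ⟨x⁻¹ s, h5 s hs, Equiv.apply_symm_apply x s⟩
  · intro s hs
    rw [inv_inv]
    exact mem_image_of_mem _ (h4 hs)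
  · exact card_image_le.trans h6

/-- injectivity of a set of pairs with which a permutation agrees -/
theorem pair_card {n : ℕ} {x : Perm (Fin n)} {S : Finset (Fin n × Fin n)}
    (h : ∀ e ∈ S, x e.1 = e.2) :
    (S.image Prod.fst).card = S.card ∧ (S.image Prod.snd).card = S.card := by
  classical
  constructor
  · apply card_image_of_injOn
    intro e he e' he' hee
    exact Prod.ext hee (by rw [← h e he, ← h e' he', hee])
  · apply card_image_of_injOn
    intro e he e' he' hee
    have h1 : x e.1 = x e'.1 := by rw [h e he, h e' he', hee]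
    exact Prod.ext (x.injective h1) hee

/-- the admissible states -/
structure St {n : ℕ} (blk Eb : Finset (Fin n) → Prop) (S : Finset (Fin n × Fin n))
    (D E : Finset (Fin n)) : Prop where
  fst : S.image Prod.fst ⊆ D
  snd : S.image Prod.snd ⊆ E
  clD : blk D
  clE : blk E
  gD : Eb D
  gE : Eb E
  card : D.card + E.card ≤ 3 * (S.card + 1)

theorem St.swap {n : ℕ} {blk Eb : Finset (Fin n) → Prop} {S : Finset (Fin n × Fin n)}
    {D E : Finset (Fin n)} (h : St blk Eb S D E) : St blk Eb (S.image Prod.swap) E D := by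
  classical
  refine ⟨?_, ?_, h.clE, h.clD, h.gE, h.gD, ?_⟩
  · rw [image_image]; exact h.snd
  · rw [image_image]; exact h.fst
  · rw [card_image_of_injective _ Prod.swap_injective]
    have := h.card
    omega

/-- the bound for the states with `b - j` pairs -/
def Bd {n : ℕ} (blk : Fin n → Finset (Fin n)) (Eb : Finset (Fin n) → Finset (Fin n))
    (A : Set (Perm (Fin n))) (r b : ℕ) (M β : ℝ) (j : ℕ) : Prop :=
  ∀ (S : Finset (Fin n × Fin n)) (D E : Finset (Fin n)), St (Cl blk) (Good Eb) S D E →
    S.card + j = b → ((Ev blk A r b S D E).card : ℝ) * (n : ℝ) ^ S.card ≤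
      M * ((1 / 8) ^ (D.card + E.card - 2 * S.card) + j * β)

open Classical in
/-- one step of the exploration -/
theorem estep {n t r b u : ℕ} (hn : 1 ≤ n) {A : Set (Perm (Fin n))}
    {Eb : Finset (Fin n) → Finset (Fin n)} {blk : Fin n → Finset (Fin n)} (hb : Blk blk u)
    (M β : ℝ) (hM : 0 ≤ M) (hβ : 0 ≤ β)
    (hflat : ∀ D, Good Eb D → D.card ≤ t → ∀ S : Finset (Fin n × Fin n),
      S.image Prod.fst ⊆ D → ((agr A r S).card : ℝ) * (n : ℝ) ^ S.card ≤ M)
    (hbad : ∀ S, Good Eb S → Cl blk S → S.card + 2 ≤ t →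
      ((univ.filter fun q => q ∉ S ∧ ¬ Good Eb (S ∪ blk q)).card : ℝ) ≤ β * n)
    (hbt : 3 * (b + 1) + 2 ≤ t) (hnum : 512 * t + 64 * u ≤ 7 * n) (j : ℕ)
    (ih : Bd blk Eb A r b M β j) (S : Finset (Fin n × Fin n)) (D E : Finset (Fin n))
    (hSt : St (Cl blk) (Good Eb) S D E) (hj : S.card + (j + 1) = b) (hSD : S.card < D.card) :
    ((Ev blk A r b S D E).card : ℝ) * (n : ℝ) ^ S.card ≤
      M * ((1 / 8) ^ (D.card + E.card - 2 * S.card) + (j + 1 : ℕ) * β) := by
  have hn' : (0 : ℝ) < n := by exact_mod_cast hn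
  obtain ⟨r0, hr0D, hr0S⟩ : ∃ r0 ∈ D, r0 ∉ S.image Prod.fst := by
    by_contra hcon
    push Not at hcon
    have h1 := card_le_card (show D ⊆ S.image Prod.fst from hcon)
    have h2 : (S.image Prod.fst).card ≤ S.card := card_image_le
    omega
  set π := D.card + E.card - 2 * S.card with hπ
  set ζ : ℝ := (1 / 8) ^ π with hζ
  have hζ0 : 0 < ζ := by positivity
  set c : Fin n → ℝ := fun q => j * β + ζ / 8 + (if q ∈ E then 64 * ζ else 0) +
    (if q ∉ E ∧ ¬ Good Eb (E ∪ blk q) then 1 else 0) +
    (if (blk q).card = 1 then 8 * ζ else 0) with hc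
  have hDt : D.card + 2 ≤ t := by
    have := hSt.card
    omega
  have hEt : E.card + 2 ≤ t := by
    have := hSt.card
    omega
  have hjβ : 0 ≤ (j : ℝ) * β := by positivity
  -- the bound for one value
  have hq : ∀ q, (((Ev blk A r b S D E).filter fun x => x r0 = q).card : ℝ) *
      (n : ℝ) ^ (S.card + 1) ≤ M * c q := by
    intro q
    have hi1 : (0 : ℝ) ≤ if q ∈ E then 64 * ζ else 0 := by split_ifs <;> positivity
    have hi2 : (0 : ℝ) ≤ if q ∉ E ∧ ¬ Good Eb (E ∪ blk q) then 1 else 0 := by
      split_ifs <;> norm_num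
    have hi3 : (0 : ℝ) ≤ if (blk q).card = 1 then 8 * ζ else 0 := by split_ifs <;> positivity
    have hcq : c q = j * β + ζ / 8 + (if q ∈ E then 64 * ζ else 0) +
      (if q ∉ E ∧ ¬ Good Eb (E ∪ blk q) then 1 else 0) +
      (if (blk q).card = 1 then 8 * ζ else 0) := rfl
    rcases ((Ev blk A r b S D E).filter fun x => x r0 = q).eq_empty_or_nonempty with
      he | ⟨x0, hx0⟩
    · rw [he, card_empty, Nat.cast_zero, zero_mul]
      refine mul_nonneg hM ?_
      rw [hcq]
      positivity
    rw [mem_filter, mem_Ev] at hx0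
    obtain ⟨⟨⟨-, hx1⟩, -⟩, hx2⟩ := hx0
    set S' := insert (r0, q) S with hS'
    have hx3 : ∀ e ∈ S', x0 e.1 = e.2 := by
      intro e he
      rcases mem_insert.1 he with h | h
      · rw [h]; exact hx2
      · exact hx1 e h
    have hnot : (r0, q) ∉ S := fun h => hr0S (mem_image_of_mem Prod.fst h)
    have hS'c : S'.card = S.card + 1 := card_insert_of_notMem hnot
    obtain ⟨hp1, hp2⟩ := pair_card hx3
    have hfst : S'.image Prod.fst ⊆ D := by
      rw [hS', image_insert, insert_subset_iff]
      exact ⟨hr0D, hSt.fst⟩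
    have hSD' : S'.card ≤ D.card := by rw [← hp1]; exact card_le_card hfst
    have hSE : S.card ≤ E.card := by
      rw [← (pair_card hx1).2]; exact card_le_card hSt.snd
    have hagr : ((Ev blk A r b S D E).filter fun x => x r0 = q) ⊆ agr A r S' := by
      intro x hx
      rw [mem_filter, mem_Ev] at hx
      obtain ⟨⟨⟨h1, h2⟩, -⟩, h3⟩ := hx
      unfold agr
      rw [mem_filter, mem_ball]
      refine ⟨h1, fun e he => ?_⟩
      rcases mem_insert.1 he with h | h
      · rw [h]; exact h3
      · exact h2 e h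
    have hsub : ∀ E', E' ⊆ E ∪ blk q → ((Ev blk A r b S D E).filter fun x => x r0 = q) ⊆
        Ev blk A r b S' D E' := by
      intro E' hE' x hx
      have h0 := hagr hx
      rw [mem_filter, mem_Ev] at hx
      obtain ⟨⟨-, C, h4, h5, h6, h7⟩, h3⟩ := hx
      unfold agr at h0
      rw [mem_filter, mem_ball] at h0
      rw [mem_Ev]
      refine ⟨h0, C, h4, h5, fun s hs => ?_, h7⟩
      rcases mem_union.1 (hE' hs) with h | h
      · exact h6 s h
      · rw [← h3] at h
        exact (h4 r0 (h5 hr0D)).2 s h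
    -- the conclusion from the induction hypothesis
    have hfin : ∀ E', E' ⊆ E ∪ blk q → St (Cl blk) (Good Eb) S' D E' →
        (((Ev blk A r b S D E).filter fun x => x r0 = q).card : ℝ) *
          (n : ℝ) ^ (S.card + 1) ≤
        M * ((1 / 8) ^ (D.card + E'.card - 2 * S'.card) + j * β) := by
      intro E' hE' hSt'
      have h1 := ih S' D E' hSt' (by omega)
      rw [hS'c] at h1 ⊢
      refine le_trans ?_ h1
      exact mul_le_mul_of_nonneg_right (by exact_mod_cast card_le_card (hsub E' hE'))
        (by positivity)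
    by_cases hqE : q ∈ E
    · have hsnd : S'.image Prod.snd ⊆ E := by
        rw [hS', image_insert, insert_subset_iff]
        exact ⟨hqE, hSt.snd⟩
      have hSE' : S'.card ≤ E.card := by rw [← hp2]; exact card_le_card hsnd
      have h1 := hfin E subset_union_left ⟨hfst, hsnd, hSt.clD, hSt.clE, hSt.gD, hSt.gE, by
        have := hSt.card; omega⟩
      refine h1.trans (mul_le_mul_of_nonneg_left ?_ hM)
      have h2 : π = D.card + E.card - 2 * S'.card + 2 := by omega
      have h3 : (1 / 8 : ℝ) ^ (D.card + E.card - 2 * S'.card) = 64 * ζ := by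
        rw [hζ, h2, pow_add]; ring
      rw [h3, hcq, if_pos hqE]
      linarith
    · have hsnd : S'.image Prod.snd ⊆ E ∪ blk q := by
        rw [hS', image_insert, insert_subset_iff]
        exact ⟨mem_union_right _ (hb.self q), hSt.snd.trans subset_union_left⟩
      have hdisj : Disjoint E (blk q) := by
        rw [disjoint_left]
        intro s hs hs'
        apply hqE
        apply hSt.clE s hs
        rw [hb.eq q s hs']
        exact hb.self q
      have hEc : (E ∪ blk q).card = E.card + (blk q).card := card_union_of_disjoint hdisj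
      have hcl : Cl blk (E ∪ blk q) := by
        intro p hp
        rcases mem_union.1 hp with h | h
        · exact (hSt.clE p h).trans subset_union_left
        · rw [hb.eq q p h]; exact subset_union_right
      have hSE' : S'.card ≤ (E ∪ blk q).card := by rw [← hp2]; exact card_le_card hsnd
      by_cases hgood : Good Eb (E ∪ blk q)
      · have h1 := hfin (E ∪ blk q) (Subset.refl _)
          ⟨hfst, hsnd, hSt.clD, hcl, hSt.gD, hgood, by
            have := hSt.card
            rcases hb.card q with h | h <;> omega⟩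
        refine h1.trans (mul_le_mul_of_nonneg_left ?_ hM)
        rw [hcq, if_neg hqE, if_neg (fun h => h.2 hgood)]
        rcases hb.card q with h | h
        · rw [if_pos h]
          have h2 : π = D.card + (E ∪ blk q).card - 2 * S'.card + 1 := by omega
          have h3 : (1 / 8 : ℝ) ^ (D.card + (E ∪ blk q).card - 2 * S'.card) = 8 * ζ := by
            rw [hζ, h2, pow_add]; ring
          rw [h3]
          linarith
        · rw [if_neg (by omega)]
          have h2 : D.card + (E ∪ blk q).card - 2 * S'.card = π + 1 := by omega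
          have h3 : (1 / 8 : ℝ) ^ (D.card + (E ∪ blk q).card - 2 * S'.card) = ζ / 8 := by
            rw [hζ, h2, pow_add]; ring
          rw [h3]
          linarith
      · have h1 := hflat D hSt.gD (by omega) S' hfst
        rw [hS'c] at h1
        have h2 : (((Ev blk A r b S D E).filter fun x => x r0 = q).card : ℝ) *
            (n : ℝ) ^ (S.card + 1) ≤ M :=
          le_trans (mul_le_mul_of_nonneg_right (by exact_mod_cast card_le_card hagr)
            (by positivity)) h1
        refine h2.trans ?_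
        have h3 : (1 : ℝ) ≤ c q := by
          rw [hcq, if_neg hqE, if_pos ⟨hqE, hgood⟩]
          have : 0 ≤ ζ / 8 := by positivity
          linarith
        calc M = M * 1 := (mul_one M).symm
          _ ≤ M * c q := mul_le_mul_of_nonneg_left h3 hM
  -- summation
  have hsum : ((Ev blk A r b S D E).card : ℝ) =
      ∑ q : Fin n, (((Ev blk A r b S D E).filter fun x => x r0 = q).card : ℝ) := by
    rw [card_eq_sum_card_fiberwise (f := fun x : Perm (Fin n) => x r0) (t := univ)
      (fun x _ => mem_coe.2 (mem_univ _))]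
    push_cast
    rfl
  have hcs : ∑ q, c q ≤ n * (ζ + (j + 1 : ℕ) * β) := by
    have h1 : ∑ q, c q = n * (j * β + ζ / 8) + (E.card : ℝ) * (64 * ζ) +
        ((univ.filter fun q => q ∉ E ∧ ¬ Good Eb (E ∪ blk q)).card : ℝ) +
        ((univ.filter fun q => (blk q).card = 1).card : ℝ) * (8 * ζ) := by
      simp only [hc, sum_add_distrib]
      congr 1
      · congr 1
        · congr 1
          · rw [sum_const, sum_const, card_univ, Fintype.card_fin, nsmul_eq_mul, nsmul_eq_mul]
            ring
          · rw [← sum_filter, sum_const, nsmul_eq_mul]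
            congr 3
            ext q
            simp
        · rw [← sum_filter, sum_const, nsmul_eq_mul, mul_one]
      · rw [← sum_filter, sum_const, nsmul_eq_mul]
    rw [h1]
    have h2 := hbad E hSt.gE hSt.clE hEt
    have h3 : ((univ.filter fun q => (blk q).card = 1).card : ℝ) ≤ u := by
      exact_mod_cast hb.one
    have h4 : (E.card : ℝ) ≤ t := by
      have : E.card ≤ t := by omega
      exact_mod_cast this
    have h5 : (512 : ℝ) * t + 64 * u ≤ 7 * n := by exact_mod_cast hnum
    have h6 : (E.card : ℝ) * (64 * ζ) ≤ t * (64 * ζ) :=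
      mul_le_mul_of_nonneg_right h4 (by positivity)
    have h7 : ((univ.filter fun q => (blk q).card = 1).card : ℝ) * (8 * ζ) ≤ u * (8 * ζ) :=
      mul_le_mul_of_nonneg_right h3 (by positivity)
    have h8 : ((512 : ℝ) * t + 64 * u) * ζ ≤ 7 * n * ζ := mul_le_mul_of_nonneg_right h5 hζ0.le
    push_cast
    nlinarith
  have h9 : ((Ev blk A r b S D E).card : ℝ) * (n : ℝ) ^ S.card * n ≤
      M * (ζ + (j + 1 : ℕ) * β) * n := by
    calc ((Ev blk A r b S D E).card : ℝ) * (n : ℝ) ^ S.card * n
        = ∑ q : Fin n, (((Ev blk A r b S D E).filter fun x => x r0 = q).card : ℝ) *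
            (n : ℝ) ^ (S.card + 1) := by rw [← sum_mul, ← hsum, pow_succ]; ring
      _ ≤ ∑ q, M * c q := sum_le_sum fun q _ => hq q
      _ = M * ∑ q, c q := by rw [mul_sum]
      _ ≤ M * (n * (ζ + (j + 1 : ℕ) * β)) := mul_le_mul_of_nonneg_left hcs hM
      _ = M * (ζ + (j + 1 : ℕ) * β) * n := by ring
  exact le_of_mul_le_mul_right h9 hn'

open Classical in
/-- the exploration -/
theorem bd {n t r b u : ℕ} (hn : 1 ≤ n) {A : Set (Perm (Fin n))}
    {Eb : Finset (Fin n) → Finset (Fin n)} {blk : Fin n → Finset (Fin n)} (hb : Blk blk u)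
    (M β : ℝ) (hM : 0 ≤ M) (hβ : 0 ≤ β)
    (hflat : ∀ D, Good Eb D → D.card ≤ t → ∀ S : Finset (Fin n × Fin n),
      S.image Prod.fst ⊆ D → ((agr A r S).card : ℝ) * (n : ℝ) ^ S.card ≤ M)
    (hbad : ∀ S, Good Eb S → Cl blk S → S.card + 2 ≤ t →
      ((univ.filter fun q => q ∉ S ∧ ¬ Good Eb (S ∪ blk q)).card : ℝ) ≤ β * n)
    (hbt : 3 * (b + 1) + 2 ≤ t) (hnum : 512 * t + 64 * u ≤ 7 * n) (j : ℕ) :
    Bd blk Eb A r b M β j := by
  induction j with
  | zero =>
      intro S D E hSt hj
      rcases (Ev blk A r b S D E).eq_empty_or_nonempty with he | ⟨x0, hx0⟩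
      · rw [he, card_empty, Nat.cast_zero, zero_mul]
        positivity
      rw [mem_Ev] at hx0
      obtain ⟨⟨-, h1⟩, C, -, h2, h3, h4⟩ := hx0
      obtain ⟨hp1, hp2⟩ := pair_card h1
      have h5 := card_le_card h2
      have h6 : E.card ≤ C.card := card_le_card_of_injOn (fun s => x0⁻¹ s) h3
        (fun a _ b _ h => (x0⁻¹).injective h)
      have h7 := card_le_card hSt.fst
      have h8 := card_le_card hSt.snd
      have h9 : D.card + E.card - 2 * S.card = 0 := by omega
      rw [h9, pow_zero]
      have h10 := hflat D hSt.gD (by have := hSt.card; omega) S hSt.fst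
      have h11 : ((Ev blk A r b S D E).card : ℝ) ≤ (agr A r S).card := by
        exact_mod_cast card_le_card (by unfold Ev; exact filter_subset _ _)
      calc ((Ev blk A r b S D E).card : ℝ) * (n : ℝ) ^ S.card
          ≤ ((agr A r S).card : ℝ) * (n : ℝ) ^ S.card :=
            mul_le_mul_of_nonneg_right h11 (by positivity)
        _ ≤ M := h10
        _ = M * (1 + ((0 : ℕ) : ℝ) * β) := by push_cast; ring
  | succ j ih =>
      intro S D E hSt hj
      rcases (Ev blk A r b S D E).eq_empty_or_nonempty with he | ⟨x0, hx0⟩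
      · rw [he, card_empty, Nat.cast_zero, zero_mul]
        positivity
      rw [mem_Ev] at hx0
      obtain ⟨⟨-, h1⟩, -⟩ := hx0
      obtain ⟨hp1, hp2⟩ := pair_card h1
      have h7 := card_le_card hSt.fst
      have h8 := card_le_card hSt.snd
      rcases Nat.lt_or_ge S.card D.card with hSD | hSD
      · exact estep hn hb M β hM hβ hflat hbad hbt hnum j ih S D E hSt hj hSD
      · rcases Nat.lt_or_ge S.card E.card with hSE | hSE
        · have hc : (S.image Prod.swap).card = S.card :=
            card_image_of_injective _ Prod.swap_injective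
          have h9 := estep hn hb M β hM hβ hflat hbad hbt hnum j ih (S.image Prod.swap) E D
            hSt.swap (by rw [hc]; exact hj) (by rw [hc]; exact hSE)
          rw [hc, Nat.add_comm E.card D.card] at h9
          refine le_trans (mul_le_mul_of_nonneg_right ?_ (by positivity)) h9
          exact_mod_cast Ev_swap blk A r b S D E
        · have h9 : D.card + E.card - 2 * S.card = 0 := by omega
          rw [h9, pow_zero]
          have h10 := hflat D hSt.gD (by have := hSt.card; omega) S hSt.fst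
          have h11 : ((Ev blk A r b S D E).card : ℝ) ≤ (agr A r S).card := by
            exact_mod_cast card_le_card (by unfold Ev; exact filter_subset _ _)
          have h12 : (0 : ℝ) ≤ M * (((j + 1 : ℕ) : ℝ) * β) := by positivity
          calc ((Ev blk A r b S D E).card : ℝ) * (n : ℝ) ^ S.card
              ≤ ((agr A r S).card : ℝ) * (n : ℝ) ^ S.card :=
                mul_le_mul_of_nonneg_right h11 (by positivity)
            _ ≤ M := h10
            _ ≤ M * (1 + ((j + 1 : ℕ) : ℝ) * β) := by rw [mul_add, mul_one]; linarith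

open Classical in
/-- some element of the ball has few points in small closed sets -/
theorem explore {n t r b u : ℕ} (hn : 1 ≤ n) {A : Set (Perm (Fin n))}
    {Eb : Finset (Fin n) → Finset (Fin n)} {blk : Fin n → Finset (Fin n)} (hb : Blk blk u)
    (β : ℝ) (hβ : 0 ≤ β)
    (hflat : ∀ D, Good Eb D → D.card ≤ t → ∀ S : Finset (Fin n × Fin n),
      S.image Prod.fst ⊆ D → ((agr A r S).card : ℝ) * (n : ℝ) ^ S.card ≤
        121 / 100 * (ball A r).card)
    (hbad : ∀ S, Good Eb S → Cl blk S → S.card + 2 ≤ t →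
      ((univ.filter fun q => q ∉ S ∧ ¬ Good Eb (S ∪ blk q)).card : ℝ) ≤ β * n)
    (hbt : 3 * (b + 1) + 2 ≤ t) (hnum : 512 * t + 64 * u ≤ 7 * n) :
    ∃ x, InBall A r x ∧
      ((univ.filter fun p => ∃ C, Clx blk x C ∧ p ∈ C ∧ C.card ≤ b).card : ℝ) ≤
        u + β * n + 121 / 100 * n * (1 / 512 + b * β) := by
  set X := ball A r with hX
  set Sm : Perm (Fin n) → Fin n → Prop := fun x p =>
    ∃ C, Clx blk x C ∧ p ∈ C ∧ C.card ≤ b with hSm
  set G : Finset (Fin n) := univ.filter fun p => (blk p).card = 3 ∧ Good Eb (blk p) with hG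
  have h0 := bd hn hb (121 / 100 * X.card) β (by positivity) hβ hflat hbad hbt hnum b
  have hG1 : ∀ p ∈ G, ((X.filter fun x => Sm x p).card : ℝ) ≤
      121 / 100 * X.card * (1 / 512 + b * β) := by
    intro p hp
    rw [hG, mem_filter] at hp
    have h1 := h0 ∅ (blk p) ∅ ⟨by simp, by simp, by
        intro q hq
        rw [hb.eq p q hq], by
        intro q hq
        simp at hq, hp.2.2, Good.empty, by rw [hp.2.1]; simp⟩ (by simp)
    rw [hp.2.1, card_empty, pow_zero, mul_one] at h1
    refine le_trans ?_ (h1.trans (le_of_eq ?_))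
    · have : (X.filter fun x => Sm x p) ⊆ Ev blk A r b ∅ (blk p) ∅ := by
        intro x hx
        rw [mem_filter] at hx
        obtain ⟨hx1, C, hC1, hC2, hC3⟩ := hx
        rw [mem_Ev]
        exact ⟨⟨mem_ball.1 hx1, by simp⟩, C, hC1, (hC1 p hC2).1, by simp, hC3⟩
      exact_mod_cast card_le_card this
    · norm_num
  have hGc : ((Gᶜ).card : ℝ) ≤ u + β * n := by
    have h1 : Gᶜ ⊆ (univ.filter fun p => (blk p).card = 1) ∪
        (univ.filter fun q => q ∉ (∅ : Finset (Fin n)) ∧ ¬ Good Eb (∅ ∪ blk q)) := by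
      intro p hp
      rw [mem_compl, hG, mem_filter] at hp
      rw [mem_union, mem_filter, mem_filter]
      rcases hb.card p with h | h
      · exact Or.inl ⟨mem_univ _, h⟩
      · right
        refine ⟨mem_univ _, by simp, fun h2 => hp ⟨mem_univ _, h, ?_⟩⟩
        rwa [empty_union] at h2
    have h2 := hbad ∅ Good.empty (by intro q hq; simp at hq) (by rw [card_empty]; omega)
    have h3 : ((univ.filter fun q => (blk q).card = 1).card : ℝ) ≤ u := by
      exact_mod_cast hb.one
    have h4 : ((Gᶜ).card : ℝ) ≤ ((univ.filter fun p => (blk p).card = 1).card : ℝ) +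
        ((univ.filter fun q => q ∉ (∅ : Finset (Fin n)) ∧ ¬ Good Eb (∅ ∪ blk q)).card : ℝ) := by
      exact_mod_cast (card_le_card h1).trans (card_union_le _ _)
    linarith
  by_contra hcon
  push Not at hcon
  set Z : ℝ := u + β * n + 121 / 100 * n * (1 / 512 + b * β) with hZ
  have hXpos : 0 < X.card := card_pos.2 ⟨1, mem_ball.2 InBall.one⟩
  have h5 : ∑ x ∈ X, ((univ.filter fun p => Sm x p).card : ℝ) =
      ∑ p, ((X.filter fun x => Sm x p).card : ℝ) := by
    have : ∑ x ∈ X, (univ.filter fun p => Sm x p).card =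
        ∑ p, (X.filter fun x => Sm x p).card := by
      simp_rw [card_filter]
      rw [sum_comm]
    exact_mod_cast this
  have h6 : (X.card : ℝ) * Z < ∑ x ∈ X, ((univ.filter fun p => Sm x p).card : ℝ) := by
    rw [← nsmul_eq_mul, ← sum_const]
    refine sum_lt_sum_of_nonempty (card_pos.1 hXpos) fun x hx => ?_
    exact hcon x (mem_ball.1 hx)
  have h7 : ∑ p, ((X.filter fun x => Sm x p).card : ℝ) ≤ (X.card : ℝ) * Z := by
    rw [← sum_compl_add_sum G]
    have h8 : ∑ p ∈ Gᶜ, ((X.filter fun x => Sm x p).card : ℝ) ≤ (u + β * n) * X.card := by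
      calc ∑ p ∈ Gᶜ, ((X.filter fun x => Sm x p).card : ℝ) ≤ ∑ _p ∈ Gᶜ, (X.card : ℝ) :=
            sum_le_sum fun p _ => by exact_mod_cast card_le_card (filter_subset _ _)
        _ = ((Gᶜ).card : ℝ) * X.card := by rw [sum_const, nsmul_eq_mul]
        _ ≤ (u + β * n) * X.card := mul_le_mul_of_nonneg_right hGc (by positivity)
    have h9 : ∑ p ∈ G, ((X.filter fun x => Sm x p).card : ℝ) ≤
        n * (121 / 100 * X.card * (1 / 512 + b * β)) := by
      have h10 : (G.card : ℝ) ≤ n := by
        have := card_le_univ G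
        rw [Fintype.card_fin] at this
        exact_mod_cast this
      calc ∑ p ∈ G, ((X.filter fun x => Sm x p).card : ℝ)
          ≤ ∑ _p ∈ G, (121 / 100 * X.card * (1 / 512 + b * β) : ℝ) := sum_le_sum hG1
        _ = (G.card : ℝ) * (121 / 100 * X.card * (1 / 512 + b * β)) := by
            rw [sum_const, nsmul_eq_mul]
        _ ≤ n * (121 / 100 * X.card * (1 / 512 + b * β)) :=
            mul_le_mul_of_nonneg_right h10 (by positivity)
    calc _ ≤ (u + β * n) * X.card + n * (121 / 100 * X.card * (1 / 512 + b * β)) :=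
          add_le_add h8 h9
      _ = (X.card : ℝ) * Z := by rw [hZ]; ring
  rw [h5] at h6
  exact absurd h7 (not_le.2 h6)

end Pool.Agent.SymDiam.EX
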