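import Pool.Agent.Lib.MP_7b6720_al.LB.EX.Kill

set_option autoImplicit false

/-!
# Exponential balls, 2: flatness of the ball of a stable radius
-/

namespace Pool.Agent.SymDiam.EX

open Equiv Finset Pool.Agent.SymDiam.H44 Pool.Agent.SymDiam.LB

/-- sets whose points can be moved one after the other -/
inductive Good {n : ℕ} (Eb : Finset (Fin n) → Finset (Fin n)) : Finset (Fin n) → Prop
  | empty : Good Eb ∅
  | insert (D : Finset (Fin n)) (p : Fin n) (hD : Good Eb D) (hp : p ∉ D) (hE : p ∉ Eb D) :
      Good Eb (Insert.insert p D)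

open Classical in
/-- the ball as a finset -/
noncomputable def ball {n : ℕ} (A : Set (Perm (Fin n))) (r : ℕ) : Finset (Perm (Fin n)) :=
  univ.filter fun x => InBall A r x

theorem mem_ball {n : ℕ} {A : Set (Perm (Fin n))} {r : ℕ} {x : Perm (Fin n)} :
    x ∈ ball A r ↔ InBall A r x := by
  unfold ball
  simp

theorem ball_mono {n : ℕ} {A : Set (Perm (Fin n))} {r s : ℕ} (h : r ≤ s) :
    (ball A r).card ≤ (ball A s).card :=
  card_le_card fun _ hx => mem_ball.2 ((mem_ball.1 hx).mono h)

open Classical in
/-- right flatness -/
theorem flat0 {n t d l l' : ℕ} {A : Set (Perm (Fin n))} {Eb : Finset (Fin n) → Finset (Fin n)}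
    (hS : Spl A t d l l' Eb) {D : Finset (Fin n)} (hD : Good Eb D) :
    D.card ≤ t → ∀ P ⊆ D, ∀ (x0 : Perm (Fin n)) (r : ℕ),
      ((ball A r).filter fun x => ∀ p ∈ P, x p = x0 p).card * (n - d) ^ D.card ≤
        (ball A (r + D.card * l')).card * n ^ (D.card - P.card) := by
  induction hD with
  | empty =>
      intro _ P _ x0 r
      rw [card_empty, pow_zero, mul_one, Nat.zero_mul, Nat.add_zero, Nat.zero_sub, pow_zero,
        mul_one]
      exact card_le_card (filter_subset _ _)
  | insert D p hD hp hE ih =>
      intro hc P hPD x0 r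
      rw [card_insert_of_notMem hp] at hc
      rw [card_insert_of_notMem hp]
      have ih' := ih (by omega)
      by_cases hpP : p ∈ P
      · have hP0 : P.erase p ⊆ D := by
          intro q hq
          rw [mem_erase] at hq
          rcases mem_insert.1 (hPD hq.2) with h | h
          · exact absurd h hq.1
          · exact h
        have hPc : (P.erase p).card + 1 = P.card := card_erase_add_one hpP
        have hjoi : ∀ q : Fin n, ∃ z : Perm (Fin n), q ∉ Eb D →
            (InBall A l' z ∧ (∀ s ∈ D, z s = s) ∧ z q = p) := by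
          intro q
          by_cases hq : q ∈ Eb D
          · exact ⟨1, fun h => absurd hq h⟩
          · obtain ⟨z, hz⟩ := hS.joi D (by omega) q hq p hE
            exact ⟨z, fun _ => hz⟩
        choose z hz using hjoi
        set S := (ball A r).filter fun x => ∀ q ∈ P, x q = x0 q with hSdef
        set U := (Eb D)ᶜ with hU
        have hUc : n - d ≤ U.card := by
          rw [hU, card_compl, Fintype.card_fin]
          have := hS.card D (by omega)
          omega
        have h1 : (S ×ˢ U).card ≤
            ((ball A (r + l')).filter fun x => ∀ q ∈ P.erase p, x q = x0 q).card := by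
          refine card_le_card_of_injOn (fun e => e.1 * z e.2) ?_ ?_
          · rintro ⟨x, q⟩ hxq
            rw [mem_coe, mem_product] at hxq
            obtain ⟨hx, hq⟩ := hxq
            simp only at hx hq
            rw [hU, mem_compl] at hq
            obtain ⟨z1, z2, z3⟩ := hz q hq
            rw [hSdef, mem_filter] at hx
            rw [mem_coe, mem_filter]
            refine ⟨mem_ball.2 ((mem_ball.1 hx.1).mul z1), fun s hs => ?_⟩
            simp only [Perm.mul_apply]
            rw [z2 s (hP0 hs)]
            exact hx.2 s (mem_erase.1 hs).2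
          · rintro ⟨x, q⟩ hxq ⟨y, s⟩ hys hEq
            rw [mem_coe, mem_product] at hxq hys
            obtain ⟨hx, hq⟩ := hxq
            obtain ⟨hy, hs⟩ := hys
            simp only at hx hq hy hs hEq
            rw [hU, mem_compl] at hq hs
            obtain ⟨-, -, z3⟩ := hz q hq
            obtain ⟨-, -, w3⟩ := hz s hs
            rw [hSdef, mem_filter] at hx hy
            have h2 : (x * z q) q = x0 p := by
              rw [Perm.mul_apply, z3, hx.2 p hpP]
            have h3 : (x * z q) s = x0 p := by
              rw [hEq, Perm.mul_apply, w3, hy.2 p hpP]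
            have h4 : q = s := (x * z q).injective (h2.trans h3.symm)
            subst h4
            rw [mul_right_cancel hEq]
        rw [card_product] at h1
        have h5 := ih' (P.erase p) hP0 x0 (r + l')
        calc S.card * (n - d) ^ (D.card + 1) = S.card * (n - d) * (n - d) ^ D.card := by ring
          _ ≤ S.card * U.card * (n - d) ^ D.card :=
              Nat.mul_le_mul_right _ (Nat.mul_le_mul_left _ hUc)
          _ ≤ ((ball A (r + l')).filter fun x => ∀ q ∈ P.erase p, x q = x0 q).card *
                (n - d) ^ D.card := Nat.mul_le_mul_right _ h1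
          _ ≤ (ball A (r + l' + D.card * l')).card * n ^ (D.card - (P.erase p).card) := h5
          _ = (ball A (r + (D.card + 1) * l')).card * n ^ (D.card + 1 - P.card) := by
              rw [← hPc, Nat.add_sub_add_right]
              congr 3
              ring
      · have hP0 : P ⊆ D := by
          intro q hq
          rcases mem_insert.1 (hPD hq) with h | h
          · rw [h] at hq; exact absurd hq hpP
          · exact h
        have h5 := ih' P hP0 x0 r
        have h6 := card_le_card hP0
        calc ((ball A r).filter fun x => ∀ q ∈ P, x q = x0 q).card * (n - d) ^ (D.card + 1)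
            = ((ball A r).filter fun x => ∀ q ∈ P, x q = x0 q).card * (n - d) ^ D.card *
                (n - d) := by ring
          _ ≤ (ball A (r + D.card * l')).card * n ^ (D.card - P.card) * n :=
              Nat.mul_le_mul h5 (Nat.sub_le _ _)
          _ = (ball A (r + D.card * l')).card * n ^ (D.card + 1 - P.card) := by
              rw [mul_assoc, ← pow_succ]
              congr 2
              omega
          _ ≤ (ball A (r + (D.card + 1) * l')).card * n ^ (D.card + 1 - P.card) := by
              refine Nat.mul_le_mul_right _ (ball_mono ?_)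
              have : (D.card + 1) * l' = D.card * l' + l' := by ring
              omega

open Classical in
/-- the elements of the ball that agree with a set of pairs -/
noncomputable def agr {n : ℕ} (A : Set (Perm (Fin n))) (r : ℕ) (S : Finset (Fin n × Fin n)) :
    Finset (Perm (Fin n)) :=
  (ball A r).filter fun x => ∀ e ∈ S, x e.1 = e.2

theorem agr_inv {n : ℕ} (A : Set (Perm (Fin n))) (r : ℕ) (S : Finset (Fin n × Fin n)) :
    (agr A r S).card ≤ (agr A r (S.image Prod.swap)).card := by
  classical
  refine card_le_card_of_injOn (fun x => x⁻¹) ?_ (fun x _ y _ h => inv_injective h)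
  intro x hx
  unfold agr at hx ⊢
  rw [mem_coe, mem_filter] at hx ⊢
  refine ⟨mem_ball.2 (mem_ball.1 hx.1).inv, ?_⟩
  rintro ⟨a, b⟩ he
  rw [mem_image] at he
  obtain ⟨⟨a', b'⟩, he, heq⟩ := he
  simp only [Prod.swap_prod_mk, Prod.mk.injEq] at heq
  obtain ⟨rfl, rfl⟩ := heq
  simp only
  rw [Perm.inv_eq_iff_eq]
  exact (hx.2 _ he).symm

/-- right flatness for a set of pairs -/
theorem flatR {n t d l l' r : ℕ} (hn : 1 ≤ n) {A : Set (Perm (Fin n))}
    {Eb : Finset (Fin n) → Finset (Fin n)}
    (hS : Spl A t d l l' Eb) (hdn : d < n) (hst : 10 * (ball A (r + t * l')).card ≤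
      11 * (ball A r).card) (hnd : 10 * n ^ t ≤ 11 * (n - d) ^ t) {D : Finset (Fin n)}
    (hD : Good Eb D) (hDt : D.card ≤ t) (S : Finset (Fin n × Fin n))
    (hSD : S.image Prod.fst ⊆ D) :
    100 * ((agr A r S).card * n ^ S.card) ≤ 121 * (ball A r).card := by
  classical
  rcases (agr A r S).eq_empty_or_nonempty with h | ⟨x0, hx0⟩
  · rw [h]; simp
  have hx0' := (mem_filter.1 hx0).2
  have hcard : (S.image Prod.fst).card = S.card := by
    apply card_image_of_injOn
    intro e he e' he' hee
    have h1 := hx0' e he
    have h2 := hx0' e' he'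
    exact Prod.ext hee (by rw [← h1, ← h2, hee])
  have h3 : agr A r S = (ball A r).filter fun x => ∀ p ∈ S.image Prod.fst, x p = x0 p := by
    unfold agr
    refine filter_congr fun x _ => ?_
    constructor
    · intro h p hp
      obtain ⟨e, he, rfl⟩ := mem_image.1 hp
      rw [h e he, hx0' e he]
    · intro h e he
      rw [h e.1 (mem_image_of_mem _ he), hx0' e he]
  have h4 := flat0 hS hD hDt _ hSD x0 r
  rw [← h3, hcard] at h4
  have h5 : S.card ≤ D.card := by rw [← hcard]; exact card_le_card hSD
  have h6 : (agr A r S).card * n ^ S.card * (n - d) ^ D.card ≤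
      (ball A (r + t * l')).card * n ^ D.card := by
    calc (agr A r S).card * n ^ S.card * (n - d) ^ D.card
        = (agr A r S).card * (n - d) ^ D.card * n ^ S.card := by ring
      _ ≤ (ball A (r + D.card * l')).card * n ^ (D.card - S.card) * n ^ S.card :=
          Nat.mul_le_mul_right _ h4
      _ = (ball A (r + D.card * l')).card * n ^ D.card := by
          rw [mul_assoc, ← pow_add, Nat.sub_add_cancel h5]
      _ ≤ (ball A (r + t * l')).card * n ^ D.card :=
          Nat.mul_le_mul_right _ (ball_mono (Nat.add_le_add_left (Nat.mul_le_mul_right _ hDt) _))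
  have h7 : 10 * n ^ D.card ≤ 11 * (n - d) ^ D.card := by
    have h8 : (n - d) ^ (t - D.card) ≤ n ^ (t - D.card) := Nat.pow_le_pow_left (Nat.sub_le _ _) _
    have h9 : 0 < n ^ (t - D.card) := Nat.pow_pos (by omega)
    have h10 : 10 * n ^ D.card * n ^ (t - D.card) ≤ 11 * (n - d) ^ D.card * n ^ (t - D.card) := by
      calc 10 * n ^ D.card * n ^ (t - D.card) = 10 * n ^ t := by
            rw [mul_assoc, ← pow_add, Nat.add_sub_cancel' hDt]
        _ ≤ 11 * (n - d) ^ t := hnd
        _ = 11 * (n - d) ^ D.card * (n - d) ^ (t - D.card) := by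
            rw [mul_assoc, ← pow_add, Nat.add_sub_cancel' hDt]
        _ ≤ 11 * (n - d) ^ D.card * n ^ (t - D.card) := Nat.mul_le_mul_left _ h8
    exact Nat.le_of_mul_le_mul_right h10 h9
  have h11 : 0 < (n - d) ^ D.card := Nat.pow_pos (by omega)
  have h12 : 100 * ((agr A r S).card * n ^ S.card) * (n - d) ^ D.card ≤
      121 * (ball A r).card * (n - d) ^ D.card := by
    calc 100 * ((agr A r S).card * n ^ S.card) * (n - d) ^ D.card
        = 100 * ((agr A r S).card * n ^ S.card * (n - d) ^ D.card) := by ring
      _ ≤ 100 * ((ball A (r + t * l')).card * n ^ D.card) := Nat.mul_le_mul_left _ h6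
      _ = (10 * (ball A (r + t * l')).card) * (10 * n ^ D.card) := by ring
      _ ≤ (11 * (ball A r).card) * (11 * (n - d) ^ D.card) := Nat.mul_le_mul hst h7
      _ = 121 * (ball A r).card * (n - d) ^ D.card := by ring
  exact Nat.le_of_mul_le_mul_right h12 h11

/-- left flatness for a set of pairs -/
theorem flatL {n t d l l' r : ℕ} (hn : 1 ≤ n) {A : Set (Perm (Fin n))}
    {Eb : Finset (Fin n) → Finset (Fin n)}
    (hS : Spl A t d l l' Eb) (hdn : d < n) (hst : 10 * (ball A (r + t * l')).card ≤
      11 * (ball A r).card) (hnd : 10 * n ^ t ≤ 11 * (n - d) ^ t) {D : Finset (Fin n)}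
    (hD : Good Eb D) (hDt : D.card ≤ t) (S : Finset (Fin n × Fin n))
    (hSD : S.image Prod.snd ⊆ D) :
    100 * ((agr A r S).card * n ^ S.card) ≤ 121 * (ball A r).card := by
  classical
  have h1 := flatR hn hS hdn hst hnd hD hDt (S.image Prod.swap) (by
    rw [image_image]
    exact hSD)
  rw [card_image_of_injective _ Prod.swap_injective] at h1
  refine le_trans (Nat.mul_le_mul_left _ (Nat.mul_le_mul_right _ (agr_inv A r S))) h1

/-- a stable radius -/
theorem stable {n : ℕ} (A : Set (Perm (Fin n))) (s I : ℕ) (hI : n ^ n * 10 ^ I < 11 ^ I) :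
    ∃ r, r ≤ I * s ∧ 10 * (ball A (r + s)).card ≤ 11 * (ball A r).card := by
  by_contra hcon
  push Not at hcon
  have h1 : ∀ i, i ≤ I → 11 ^ i ≤ 10 ^ i * (ball A (i * s)).card := by
    intro i
    induction i with
    | zero =>
        intro _
        rw [pow_zero, pow_zero, one_mul]
        exact Nat.succ_le_of_lt (card_pos.2 ⟨1, mem_ball.2 InBall.one⟩)
    | succ i ih =>
        intro hi
        have h2 := ih (by omega)
        have h3 := hcon (i * s) (Nat.mul_le_mul_right _ (by omega))
        calc 11 ^ (i + 1) = 11 * 11 ^ i := by ring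
          _ ≤ 11 * (10 ^ i * (ball A (i * s)).card) := Nat.mul_le_mul_left _ h2
          _ = 10 ^ i * (11 * (ball A (i * s)).card) := by ring
          _ ≤ 10 ^ i * (10 * (ball A (i * s + s)).card) := Nat.mul_le_mul_left _ h3.le
          _ = 10 ^ (i + 1) * (ball A ((i + 1) * s)).card := by
              have h4 : (i + 1) * s = i * s + s := by ring
              rw [h4]; ring
  have h4 := h1 I le_rfl
  have h5 : (ball A (I * s)).card ≤ n ^ n := by
    refine (card_le_univ _).trans ?_
    rw [Fintype.card_perm, Fintype.card_fin]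
    exact Nat.factorial_le_pow n
  have h6 : 10 ^ I * (ball A (I * s)).card ≤ n ^ n * 10 ^ I := by
    rw [mul_comm]
    exact Nat.mul_le_mul_right _ h5
  omega

end Pool.Agent.SymDiam.EX
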