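import Pool.Agent.Lib.MP_7b6720_al.LB.H76.Pig

set_option autoImplicit false

/-!
# Exponential balls, 1: the killing lemma and the splitting data
-/

namespace Pool.Agent.SymDiam.EX

open Equiv Finset Pool.Agent.SymDiam.H44 Pool.Agent.SymDiam.LB

/-- greedy choice of conjugators -/
theorem greedy {n k' : ℕ} {W : Perm (Fin n) → ℝ} (hW : Mixing n k' W)
    (K : Perm (Fin n) → Fin n × Fin n → Prop) [∀ h e, Decidable (K h e)]
    (U : Finset (Fin n × Fin n)) (ρ : ℝ) (hρ : ρ ≤ 1)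
    (hK : ∀ e ∈ U, ρ ≤ ∑ h, if K h e then W h else 0) (k : ℕ) :
    ∃ hs : Fin k → Perm (Fin n), (∀ i, W (hs i) ≠ 0) ∧
      ((U.filter fun e => ∀ i, ¬ K (hs i) e).card : ℝ) ≤ (1 - ρ) ^ k * U.card := by
  induction k with
  | zero =>
      refine ⟨Fin.elim0, fun i => i.elim0, ?_⟩
      rw [pow_zero, one_mul]
      exact_mod_cast card_le_card (filter_subset _ _)
  | succ k ih =>
      obtain ⟨hs, h1, h2⟩ := ih
      set V := U.filter fun e => ∀ i, ¬ K (hs i) e with hV
      obtain ⟨h, hh, hc⟩ := avg hW (fun h => ((V.filter fun e => K h e).card : ℝ)) (ρ * V.card) (by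
        have h3 : ∀ h : Perm (Fin n), W h * ((V.filter fun e => K h e).card : ℝ) =
            ∑ e ∈ V, if K h e then W h else 0 := by
          intro h
          rw [card_filter]
          push_cast
          rw [mul_sum]
          refine sum_congr rfl fun e _ => ?_
          split_ifs <;> simp
        simp_rw [h3]
        rw [sum_comm]
        calc ρ * (V.card : ℝ) = ∑ e ∈ V, ρ := by rw [sum_const, nsmul_eq_mul]; ring
          _ ≤ _ := sum_le_sum fun e he => hK e (mem_filter.1 he).1)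
      refine ⟨Fin.cons h hs, ?_, ?_⟩
      · intro i
        refine Fin.cases ?_ (fun j => ?_) i
        · simpa using hh
        · simpa using h1 j
      · have h4 : (U.filter fun e => ∀ i, ¬ K ((Fin.cons h hs : Fin (k + 1) → Perm (Fin n)) i) e) =
            V.filter fun e => ¬ K h e := by
          ext e
          simp only [hV, mem_filter, and_assoc, Fin.forall_fin_succ, Fin.cons_zero, Fin.cons_succ]
          tauto
        rw [h4]
        have h5 := card_filter_add_card_filter_not (s := V) (fun e => K h e)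
        have h6 : ((V.filter fun e => K h e).card : ℝ) + ((V.filter fun e => ¬ K h e).card : ℝ) =
            V.card := by exact_mod_cast h5
        calc ((V.filter fun e => ¬ K h e).card : ℝ) ≤ (1 - ρ) * V.card := by linarith
          _ ≤ (1 - ρ) * ((1 - ρ) ^ k * U.card) := mul_le_mul_of_nonneg_left h2 (by linarith)
          _ = (1 - ρ) ^ (k + 1) * U.card := by rw [pow_succ]; ring

/-- the killing lemma -/
theorem kill {n k k' : ℕ} (hn : 1 ≤ n) {W : Perm (Fin n) → ℝ} (hW : Mixing n k' W)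
    (X : Finset (Perm (Fin n))) (T Sg : Finset (Fin n))
    (K : Perm (Fin n) → Fin n → Fin n → Prop) (ρ : ℝ) (hρ : ρ ≤ 1)
    (hK : ∀ r ∉ T, ∀ r' ∉ T, r ≠ r' → ∃ F : Perm (Fin n) → ℝ, (∀ h, F h ≤ W h) ∧
      (∀ h, ¬ K h r r' → F h ≤ 0) ∧ ρ ≤ ∑ h, F h)
    (hk : (1 - ρ) ^ k * (n : ℝ) ^ 2 < 1) (hX : n ^ (T.card + k * Sg.card) < X.card) :
    ∃ x ∈ X, ∃ y ∈ X, ∃ h r, W h ≠ 0 ∧ (∀ p ∈ T, (x⁻¹ * y) p = p) ∧
      (∀ p ∈ Sg, (x⁻¹ * y) (h p) = h p) ∧ r ∉ T ∧ K h r ((x⁻¹ * y) r) := by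
  classical
  set U : Finset (Fin n × Fin n) := univ.filter fun e => e.1 ∉ T ∧ e.2 ∉ T ∧ e.1 ≠ e.2 with hU
  obtain ⟨hs, h1, h2⟩ := greedy hW (fun h e => K h e.1 e.2) U ρ hρ (by
    intro e he
    rw [hU, mem_filter] at he
    obtain ⟨-, ha, hb, hc⟩ := he
    obtain ⟨F, hF1, hF2, hle⟩ := hK e.1 ha e.2 hb hc
    refine hle.trans (sum_le_sum fun h _ => ?_)
    split_ifs with h0
    · exact hF1 h
    · exact hF2 h h0) k
  have h3 : (U.filter fun e => ∀ i, ¬ K (hs i) e.1 e.2) = ∅ := by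
    rw [← card_eq_zero]
    have hUc : (U.card : ℝ) ≤ (n : ℝ) ^ 2 := by
      have := card_le_univ U
      rw [Fintype.card_prod, Fintype.card_fin] at this
      have h4 : U.card ≤ n ^ 2 := by rw [pow_two]; exact this
      exact_mod_cast h4
    have h5 : ((U.filter fun e => ∀ i, ¬ K (hs i) e.1 e.2).card : ℝ) < 1 :=
      lt_of_le_of_lt (h2.trans (mul_le_mul_of_nonneg_left hUc (pow_nonneg (by linarith) _))) hk
    have h6 : (U.filter fun e => ∀ i, ¬ K (hs i) e.1 e.2).card < 1 := by exact_mod_cast h5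
    omega
  set D : Finset (Fin n) := T ∪ univ.biUnion (fun i => Sg.image (hs i)) with hD
  have hDc : D.card ≤ T.card + k * Sg.card := by
    refine (card_union_le _ _).trans (Nat.add_le_add_left ?_ _)
    refine card_biUnion_le.trans ?_
    calc ∑ i : Fin k, (Sg.image (hs i)).card ≤ ∑ i : Fin k, Sg.card :=
          sum_le_sum fun i _ => card_image_le
      _ = k * Sg.card := by rw [sum_const, card_univ, Fintype.card_fin, smul_eq_mul]
  obtain ⟨x, hx, y, hy, hne, hfix, -⟩ := pigeon X D (fun i : Fin 0 => i.elim0) (by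
    rw [Nat.mul_zero, pow_zero, mul_one]
    exact lt_of_le_of_lt (Nat.pow_le_pow_right hn hDc) hX)
  have hT : ∀ p ∈ T, (x⁻¹ * y) p = p := fun p hp => hfix p (by rw [hD]; exact mem_union_left _ hp)
  obtain ⟨r, hr⟩ : ∃ r, (x⁻¹ * y) r ≠ r := by
    by_contra hcon
    push Not at hcon
    exact hne (Perm.ext hcon)
  have hrT : r ∉ T := fun h => hr (hT r h)
  have hrT' : (x⁻¹ * y) r ∉ T := by
    intro h
    have h7 := hT _ h
    exact hr ((x⁻¹ * y).injective h7)
  have h8 : (r, (x⁻¹ * y) r) ∈ U := by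
    rw [hU, mem_filter]
    exact ⟨mem_univ _, hrT, hrT', fun h => hr h.symm⟩
  have h9 : ∃ i, K (hs i) r ((x⁻¹ * y) r) := by
    by_contra hcon
    push Not at hcon
    have : (r, (x⁻¹ * y) r) ∈ (U.filter fun e => ∀ i, ¬ K (hs i) e.1 e.2) :=
      mem_filter.2 ⟨h8, hcon⟩
    rw [h3] at this
    simp at this
  obtain ⟨i, hi⟩ := h9
  refine ⟨x, hx, y, hy, hs i, r, h1 i, hT, fun p hp => hfix _ ?_, hrT, hi⟩
  rw [hD]
  exact mem_union_right _ (mem_biUnion.2 ⟨i, mem_univ _, mem_image_of_mem _ hp⟩)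

/-- the graph of the short elements that fix `S` pointwise -/
def gr {n : ℕ} (A : Set (Perm (Fin n))) (l : ℕ) (S : Finset (Fin n)) : SimpleGraph (Fin n) where
  Adj a b := a ≠ b ∧ ∃ z, InBall A l z ∧ (∀ p ∈ S, z p = p) ∧ z a = b
  symm := ⟨by
    rintro a b ⟨hne, z, h1, h2, h3⟩
    refine ⟨hne.symm, z⁻¹, h1.inv, fun p hp => ?_, ?_⟩
    · rw [Perm.inv_eq_iff_eq, h2 p hp]
    · rw [Perm.inv_eq_iff_eq, h3]⟩
  loopless := ⟨fun a h => h.1 rfl⟩

theorem gr_step {n : ℕ} {A : Set (Perm (Fin n))} {l : ℕ} {S : Finset (Fin n)} {z : Perm (Fin n)}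
    (h1 : InBall A l z) (h2 : ∀ p ∈ S, z p = p) (a : Fin n) : (gr A l S).Reachable a (z a) := by
  by_cases h : a = z a
  · rw [← h]
  · exact SimpleGraph.Adj.reachable ⟨h, z, h1, h2, rfl⟩

theorem gr_walk {n : ℕ} {A : Set (Perm (Fin n))} {l : ℕ} {S : Finset (Fin n)} {a b : Fin n}
    (w : (gr A l S).Walk a b) :
    ∃ g, InBall A (w.length * l) g ∧ (∀ p ∈ S, g p = p) ∧ g a = b := by
  induction w with
  | nil => exact ⟨1, InBall.one, fun p _ => rfl, rfl⟩
  | cons h w ih =>
      obtain ⟨g, h1, h2, h3⟩ := ih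
      obtain ⟨-, z, k1, k2, k3⟩ := h
      refine ⟨g * z, (h1.mul k1).mono ?_, fun p hp => ?_, ?_⟩
      · rw [SimpleGraph.Walk.length_cons]; ring_nf; exact le_rfl
      · rw [Perm.mul_apply, k2 p hp, h2 p hp]
      · rw [Perm.mul_apply, k3, h3]

theorem gr_reach {n : ℕ} {A : Set (Perm (Fin n))} {l : ℕ} {S : Finset (Fin n)} {a b : Fin n}
    (h : (gr A l S).Reachable a b) : ∃ g, InBall A (n * l) g ∧ (∀ p ∈ S, g p = p) ∧ g a = b := by
  classical
  obtain ⟨w⟩ := h
  obtain ⟨g, h1, h2, h3⟩ := gr_walk (w.toPath : (gr A l S).Walk a b)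
  have h4 : (w.toPath : (gr A l S).Walk a b).length < Fintype.card (Fin n) :=
    w.toPath.2.length_lt
  rw [Fintype.card_fin] at h4
  exact ⟨g, h1.mono (Nat.mul_le_mul_right _ h4.le), h2, h3⟩

/-- one big orbit -/
theorem split_one {n k : ℕ} (hn : 2 ≤ n) {A : Set (Perm (Fin n))} {W : Perm (Fin n) → ℝ}
    {R L k' : ℕ} (hk' : 2 ≤ k') (hW : Mixing n k' W) (hWb : ∀ h, W h ≠ 0 → InBall A R h)
    (X : Finset (Perm (Fin n))) (hXb : ∀ x ∈ X, InBall A L x) (S : Finset (Fin n)) (d : ℕ)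
    (hd : d ≤ n) (hk : (1 - (d : ℝ) / n) ^ k * (n : ℝ) ^ 2 < 1) (hX : n ^ (k * S.card) < X.card) :
    ∃ E : Finset (Fin n), E.card ≤ d ∧
      (∀ z, InBall A (2 * L + 2 * R) z → (∀ p ∈ S, z p = p) → ∀ a ∈ E, z a ∈ E) ∧
      ∀ a ∉ E, ∀ b ∉ E, ∃ g, InBall A (n * (2 * L + 2 * R)) g ∧ (∀ p ∈ S, g p = p) ∧ g a = b := by
  classical
  set G := gr A (2 * L + 2 * R) S with hG
  have hn' : (2 : ℝ) ≤ n := by exact_mod_cast hn
  by_cases hex : ∃ a, (univ.filter fun b => ¬ G.Reachable a b).card ≤ d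
  · obtain ⟨a, ha⟩ := hex
    refine ⟨univ.filter fun b => ¬ G.Reachable a b, ha, ?_, ?_⟩
    · intro z hz1 hz2 c hc
      rw [mem_filter] at hc ⊢
      refine ⟨mem_univ _, fun h => hc.2 ?_⟩
      exact h.trans (gr_step hz1 hz2 c).symm
    · intro b hb c hc
      rw [mem_filter, not_and, not_not] at hb hc
      exact gr_reach ((hb (mem_univ _)).symm.trans (hc (mem_univ _)))
  · exfalso
    push Not at hex
    obtain ⟨x, hx, y, hy, h, r, hh, -, hS, -, hKr⟩ := kill (by omega) hW X ∅ S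
      (fun h r r' => ¬ G.Reachable (h⁻¹ r) (h⁻¹ r')) ((d : ℝ) / n)
      (by rw [div_le_one (by linarith)]; exact_mod_cast hd)
      (by
        intro r _ r' _ hrr
        set V : Finset (Fin n × Fin n) := univ.filter fun e => ¬ G.Reachable e.1 e.2 with hV
        have hVc : n * d ≤ V.card := by
          have h1 : V.card = ∑ a, (univ.filter fun b => ¬ G.Reachable a b).card := by
            rw [hV, card_filter]
            rw [← univ_product_univ, sum_product]
            refine sum_congr rfl fun a _ => ?_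
            rw [card_filter]
          rw [h1]
          calc n * d = ∑ _a : Fin n, d := by rw [sum_const, card_univ, Fintype.card_fin, smul_eq_mul]
            _ ≤ _ := sum_le_sum fun a _ => (hex a).le
        have hone : ∀ e ∈ V, (1 : ℝ) / (n : ℝ) ^ 2 ≤
            ∑ h, if h e.1 = r ∧ h e.2 = r' then W h else 0 := by
          intro e he
          have hee : e.1 ≠ e.2 := by
            intro h
            have := (mem_filter.1 he).2
            rw [h] at this
            exact this (SimpleGraph.Reachable.refl _)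
          have h3 := hW.lower 2 hk' (duo e.1 e.2 hee) (duo r r' hrr)
          unfold wt at h3
          simp_rw [maps_duo] at h3
          refine le_trans (le_of_eq ?_) h3
          have h4 : ((n.descFactorial 2 : ℕ) : ℝ) = (n : ℝ) * ((n : ℝ) - 1) := by
            have : n.descFactorial 2 = (n - 1) * n := by
              simp [Nat.descFactorial_succ]
            rw [this, Nat.cast_mul, Nat.cast_sub (by omega)]
            push_cast; ring
          rw [h4]
          have h5 : (n : ℝ) ≠ 0 := by linarith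
          have h6 : (n : ℝ) - 1 ≠ 0 := by intro h; linarith
          field_simp
        have h7 : ∀ h : Perm (Fin n), (∑ e ∈ V, if h e.1 = r ∧ h e.2 = r' then W h else 0) =
            if (h⁻¹ r, h⁻¹ r') ∈ V then W h else 0 := by
          intro h
          rw [← sum_ite_eq' V (h⁻¹ r, h⁻¹ r') (fun _ => W h)]
          refine sum_congr rfl fun e _ => ?_
          have h8 : (h e.1 = r ∧ h e.2 = r') ↔ e = (h⁻¹ r, h⁻¹ r') := by
            rw [Prod.ext_iff, Perm.eq_inv_iff_eq, Perm.eq_inv_iff_eq]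
          by_cases h9 : e = (h⁻¹ r, h⁻¹ r')
          · rw [if_pos h9, if_pos (h8.2 h9)]
          · rw [if_neg h9, if_neg (fun h10 => h9 (h8.1 h10))]
        refine ⟨fun h => ∑ e ∈ V, if h e.1 = r ∧ h e.2 = r' then W h else 0, ?_, ?_, ?_⟩
        · intro h
          simp only [h7]
          split_ifs
          · exact le_rfl
          · exact hW.nonneg h
        · intro h hh
          simp only [h7]
          rw [if_neg]
          intro h11
          exact hh (mem_filter.1 h11).2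
        · calc (d : ℝ) / n = (n * d : ℕ) * ((1 : ℝ) / (n : ℝ) ^ 2) := by
                push_cast; field_simp
            _ ≤ (V.card : ℝ) * ((1 : ℝ) / (n : ℝ) ^ 2) :=
                mul_le_mul_of_nonneg_right (by exact_mod_cast hVc) (by positivity)
            _ = ∑ e ∈ V, (1 : ℝ) / (n : ℝ) ^ 2 := by rw [sum_const, nsmul_eq_mul]
            _ ≤ ∑ e ∈ V, ∑ h, (if h e.1 = r ∧ h e.2 = r' then W h else 0) := sum_le_sum hone
            _ = ∑ h, ∑ e ∈ V, (if h e.1 = r ∧ h e.2 = r' then W h else 0) := sum_comm)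
      hk (by rw [card_empty, Nat.zero_add]; exact hX)
    apply hKr
    set z := x⁻¹ * y with hz
    have hzb : InBall A (2 * L) z := ((hXb x hx).inv.mul (hXb y hy)).mono (by omega)
    have h12 := gr_step (A := A) (l := 2 * L + 2 * R) (S := S) (z := cj z h)
      ((hzb.cj (hWb h hh)).mono (by omega)) (fun p hp => by
        unfold cj
        rw [Perm.mul_apply, Perm.mul_apply, hS p hp]
        exact Equiv.symm_apply_apply h p) (h⁻¹ r)
    have h13 : cj z h (h⁻¹ r) = h⁻¹ (z r) := by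
      unfold cj
      rw [Perm.mul_apply, Perm.mul_apply]
      have : h (h⁻¹ r) = r := Equiv.apply_symm_apply h r
      rw [this]
    rw [h13] at h12
    exact h12

/-- the splitting data -/
structure Spl {n : ℕ} (A : Set (Perm (Fin n))) (t d l l' : ℕ)
    (Eb : Finset (Fin n) → Finset (Fin n)) : Prop where
  card : ∀ S : Finset (Fin n), S.card ≤ t → (Eb S).card ≤ d
  inv : ∀ S : Finset (Fin n), S.card ≤ t → ∀ z, InBall A l z → (∀ p ∈ S, z p = p) →
    ∀ a ∈ Eb S, z a ∈ Eb S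
  joi : ∀ S : Finset (Fin n), S.card ≤ t → ∀ a ∉ Eb S, ∀ b ∉ Eb S,
    ∃ g, InBall A l' g ∧ (∀ p ∈ S, g p = p) ∧ g a = b

theorem split {n k t : ℕ} (hn : 2 ≤ n) {A : Set (Perm (Fin n))} {W : Perm (Fin n) → ℝ}
    {R L k' : ℕ} (hk' : 2 ≤ k') (hW : Mixing n k' W) (hWb : ∀ h, W h ≠ 0 → InBall A R h)
    (X : Finset (Perm (Fin n))) (hXb : ∀ x ∈ X, InBall A L x) (d : ℕ)
    (hd : d ≤ n) (hk : (1 - (d : ℝ) / n) ^ k * (n : ℝ) ^ 2 < 1) (hX : n ^ (k * t) < X.card) :
    ∃ Eb, Spl A t d (2 * L + 2 * R) (n * (2 * L + 2 * R)) Eb := by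
  have h1 : ∀ S : Finset (Fin n), ∃ E : Finset (Fin n), S.card ≤ t → (E.card ≤ d ∧
      (∀ z, InBall A (2 * L + 2 * R) z → (∀ p ∈ S, z p = p) → ∀ a ∈ E, z a ∈ E) ∧
      ∀ a ∉ E, ∀ b ∉ E,
        ∃ g, InBall A (n * (2 * L + 2 * R)) g ∧ (∀ p ∈ S, g p = p) ∧ g a = b) := by
    intro S
    by_cases hS : S.card ≤ t
    · obtain ⟨E, hE⟩ := split_one hn hk' hW hWb X hXb S d hd hk
        (lt_of_le_of_lt (Nat.pow_le_pow_right (by omega) (Nat.mul_le_mul_left _ hS)) hX)
      exact ⟨E, fun _ => hE⟩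
    · exact ⟨∅, fun h => absurd h hS⟩
  choose Eb hEb using h1
  exact ⟨Eb, fun S hS => (hEb S hS).1, fun S hS => (hEb S hS).2.1, fun S hS => (hEb S hS).2.2⟩

end Pool.Agent.SymDiam.EX
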