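import Pool.Agent.Lib.MP_7b6720_al.LB.EX.Step
import Pool.Agent.Lib.MP_7b6720_al.LB.H76.Final

set_option autoImplicit false

/-!
# Exponential balls, 7: the numerical conditions
-/

namespace Pool.Agent.SymDiam.EX

open Equiv Finset Pool.Agent.SymDiam.H44 Pool.Agent.SymDiam.LB

theorem pow8 (a : ℕ) (ha : 64 ≤ a) : a ^ 8 ≤ 2 ^ a := by
  induction a, ha using Nat.le_induction with
  | base => norm_num
  | succ a ha ih =>
      have h1 : 64 * (a + 1) ≤ 65 * a := by omega
      have h2 : (64 * (a + 1)) ^ 8 ≤ (65 * a) ^ 8 := Nat.pow_le_pow_left h1 8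
      rw [mul_pow, mul_pow] at h2
      have h3 : 65 ^ 8 ≤ 2 * 64 ^ 8 := by norm_num
      have h4 : 64 ^ 8 * (a + 1) ^ 8 ≤ 64 ^ 8 * (2 * a ^ 8) := by
        calc 64 ^ 8 * (a + 1) ^ 8 ≤ 65 ^ 8 * a ^ 8 := h2
          _ ≤ 2 * 64 ^ 8 * a ^ 8 := Nat.mul_le_mul_right _ h3
          _ = 64 ^ 8 * (2 * a ^ 8) := by ring
      have h5 : (a + 1) ^ 8 ≤ 2 * a ^ 8 := Nat.le_of_mul_le_mul_left h4 (by norm_num)
      calc (a + 1) ^ 8 ≤ 2 * a ^ 8 := h5
        _ ≤ 2 * 2 ^ a := Nat.mul_le_mul_left _ ih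
        _ = 2 ^ (a + 1) := by ring

theorem expk {n lam k : ℕ} (ρ : ℝ) (hρ1 : ρ ≤ 1) (hn : n < 2 ^ (lam + 1))
    (hk : 2 * ((lam : ℝ) + 1) ≤ ρ * k) : (1 - ρ) ^ k * (n : ℝ) ^ 2 < 1 := by
  have h1 : (1 - ρ) ^ k ≤ Real.exp (-(2 * ((lam : ℝ) + 1))) := by
    calc (1 - ρ) ^ k ≤ (Real.exp (-ρ)) ^ k :=
          pow_le_pow_left₀ (by linarith) (Real.one_sub_le_exp_neg ρ) k
      _ = Real.exp (-(ρ * k)) := by rw [← Real.exp_nat_mul]; congr 1; ring
      _ ≤ Real.exp (-(2 * ((lam : ℝ) + 1))) := Real.exp_le_exp.2 (by linarith)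
  have h2 : (n : ℝ) < Real.exp ((lam : ℝ) + 1) := by
    have h3 : (2 : ℝ) ≤ Real.exp 1 := by
      have := Real.add_one_le_exp (1 : ℝ)
      linarith
    calc (n : ℝ) < 2 ^ (lam + 1) := by exact_mod_cast hn
      _ ≤ (Real.exp 1) ^ (lam + 1) := pow_le_pow_left₀ (by norm_num) h3 _
      _ = Real.exp ((lam : ℝ) + 1) := by
          rw [← Real.exp_nat_mul]; congr 1; push_cast; ring
  have h3 : (n : ℝ) ^ 2 < Real.exp (2 * ((lam : ℝ) + 1)) := by
    calc (n : ℝ) ^ 2 < (Real.exp ((lam : ℝ) + 1)) ^ 2 :=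
          pow_lt_pow_left₀ h2 (by positivity) (by norm_num)
      _ = Real.exp (2 * ((lam : ℝ) + 1)) := by
          rw [← Real.exp_nat_mul]; push_cast; ring_nf
  calc (1 - ρ) ^ k * (n : ℝ) ^ 2 ≤ Real.exp (-(2 * ((lam : ℝ) + 1))) * (n : ℝ) ^ 2 :=
        mul_le_mul_of_nonneg_right h1 (by positivity)
    _ < Real.exp (-(2 * ((lam : ℝ) + 1))) * Real.exp (2 * ((lam : ℝ) + 1)) :=
        mul_lt_mul_of_pos_left h3 (Real.exp_pos _)
    _ = 1 := by rw [← Real.exp_add]; simp

theorem numer {n L R lam : ℕ} {A : Set (Perm (Fin n))} {W : Perm (Fin n) → ℝ}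
    (hW : Mixing n 4 W) (hWb : ∀ h, W h ≠ 0 → InBall A R h)
    (X : Finset (Perm (Fin n))) (hXb : ∀ x ∈ X, InBall A L x) (hX : 2 ^ (200 * n) ≤ X.card)
    (hlam : lam = Nat.log 2 n) (h200 : 200 ≤ lam) :
    ∃ (r : ℕ) (T0 : Finset (Fin n)) (ρ β : ℝ) (Eb : Finset (Fin n) → Finset (Fin n)),
      r ≤ (8 * (lam + 1) * n) * ((3 * lam + 5) * (n * (2 * L + 2 * R))) ∧
      Num n L R (3 * lam + 5) (n / lam ^ 2) (n / lam ^ 2) (40 * lam ^ 5) r lam (n / lam) 45
        (n / 59) A X T0 ρ β Eb := by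
  have hn1 : 1 ≤ n := by
    rcases Nat.eq_zero_or_pos n with h | h
    · rw [h] at hlam
      simp at hlam
      omega
    · exact h
  obtain ⟨hpow, hpow'⟩ := logs (n := n) (by omega) hlam
  have h8 : lam ^ 8 ≤ n := (pow8 lam (by omega)).trans hpow
  have hl2 : 40000 ≤ lam ^ 2 := by
    calc 40000 = 200 ^ 2 := by norm_num
      _ ≤ lam ^ 2 := Nat.pow_le_pow_left h200 2
  have hl6 : 40000 ≤ lam ^ 6 := hl2.trans (Nat.pow_le_pow_right (by omega) (by omega))
  have hl7 : 320 * lam ^ 7 ≤ 2 * n := by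
    calc 320 * lam ^ 7 ≤ 2 * (lam * lam ^ 7) := by
          have : 200 * lam ^ 7 ≤ lam * lam ^ 7 := Nat.mul_le_mul_right _ h200
          omega
      _ = 2 * lam ^ 8 := by ring
      _ ≤ 2 * n := Nat.mul_le_mul_left _ h8
  have hl5 : 40 * lam ^ 5 ≤ n := by
    have : lam ^ 5 ≤ lam ^ 7 := Nat.pow_le_pow_right (by omega) (by omega)
    omega
  have hln : 40000 * lam ≤ n := by
    have h1 : lam ^ 1 ≤ lam ^ 6 := Nat.pow_le_pow_right (by omega) (by omega)
    calc 40000 * lam ≤ lam ^ 6 * lam := Nat.mul_le_mul_right _ hl6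
      _ = lam ^ 7 := by ring
      _ ≤ lam ^ 8 := Nat.pow_le_pow_right (by omega) (by omega)
      _ ≤ n := h8
  set d := n / lam ^ 2 with hd
  have hd1 : lam ^ 2 * d ≤ n := Nat.mul_div_le n _
  have hd2 : n < lam ^ 2 * d + lam ^ 2 := by
    have := Nat.lt_mul_div_succ n (show 0 < lam ^ 2 by positivity)
    rw [Nat.mul_add, mul_one] at this
    exact this
  have hdpos : 1 ≤ d := by
    rw [hd, Nat.le_div_iff_mul_le (by positivity), one_mul]
    exact (Nat.pow_le_pow_right (by omega) (by omega)).trans h8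
  have hd3 : n ≤ 2 * (lam ^ 2 * d) := by
    have : lam ^ 2 * 1 ≤ lam ^ 2 * d := Nat.mul_le_mul_left _ hdpos
    omega
  have hd4 : 40000 * d ≤ n := (Nat.mul_le_mul_right _ hl2).trans hd1
  set m := n / lam with hm
  have hm1 : lam * m ≤ n := Nat.mul_div_le n lam
  have hm2 : n < lam * m + lam := by
    have := Nat.lt_mul_div_succ n (show 0 < lam by omega)
    rw [Nat.mul_add, mul_one] at this
    exact this
  have hm3 : 200 * m ≤ n := (Nat.mul_le_mul_right _ h200).trans hm1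
  have hmpos : 1 ≤ m := by
    rw [hm, Nat.le_div_iff_mul_le (by omega), one_mul]
    omega
  have hm4 : n ≤ 2 * (lam * (m - 1)) := by
    obtain ⟨m', hm'⟩ : ∃ m', m = m' + 1 := ⟨m - 1, by omega⟩
    have h1 : m - 1 = m' := by omega
    rw [h1]
    have h2 : lam * m = lam * m' + lam := by rw [hm']; ring
    omega
  set τ := n / 59 with hτ
  have hτ1 : 59 * τ ≤ n := Nat.mul_div_le n 59
  have hτ2 : n < 59 * τ + 59 := by omega
  obtain ⟨T0, hT0⟩ : ∃ T : Finset (Fin n), T.card = m :=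
    (exists_subset_card_eq (s := (univ : Finset (Fin n)))
      (by simpa using (show m ≤ n by omega))).imp fun T hT => hT.2
  have hnpow : ∀ a c : ℕ, (lam + 1) * a ≤ c → n ^ a ≤ 2 ^ c := by
    intro a c hac
    calc n ^ a ≤ (2 ^ (lam + 1)) ^ a := Nat.pow_le_pow_left hpow'.le _
      _ = 2 ^ ((lam + 1) * a) := by rw [← pow_mul]
      _ ≤ 2 ^ c := Nat.pow_le_pow_right (by omega) hac
  have hlt : ∀ c : ℕ, c < 200 * n → 2 ^ c < X.card := fun c hc =>
    lt_of_lt_of_le (Nat.pow_lt_pow_right (by omega) hc) hX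
  -- real versions
  have hlr : (200 : ℝ) ≤ lam := by exact_mod_cast h200
  have hnr : (0 : ℝ) < n := by exact_mod_cast hn1
  have hd1r : (lam : ℝ) ^ 2 * d ≤ n := by exact_mod_cast hd1
  have hd3r : (n : ℝ) ≤ 2 * ((lam : ℝ) ^ 2 * d) := by exact_mod_cast hd3
  -- splitting
  obtain ⟨Eb, hEb⟩ := split (k := 5 * lam ^ 3) (t := 3 * lam + 5) (by omega) (by omega) hW hWb X
    hXb d (by omega) (by
      refine expk _ ?_ hpow' ?_
      · rw [div_le_one hnr]
        exact_mod_cast (show d ≤ n by omega)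
      · have h1 : (1 : ℝ) ≤ (2 * (lam : ℝ) ^ 2) * ((d : ℝ) / n) := by
          rw [mul_div_assoc', le_div_iff₀ hnr]
          linarith
        have h2 : (5 : ℝ) / 2 * lam * 1 ≤ 5 / 2 * lam * ((2 * (lam : ℝ) ^ 2) * ((d : ℝ) / n)) :=
          mul_le_mul_of_nonneg_left h1 (by positivity)
        have h3 : (5 : ℝ) / 2 * lam * ((2 * (lam : ℝ) ^ 2) * ((d : ℝ) / n)) =
            (d : ℝ) / n * ((5 * lam ^ 3 : ℕ) : ℝ) := by push_cast; ring
        rw [h3] at h2
        linarith) (by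
      refine lt_of_le_of_lt (hnpow _ (40 * lam ^ 5) ?_) (hlt _ (by omega))
      calc (lam + 1) * (5 * lam ^ 3 * (3 * lam + 5)) ≤ (2 * lam) * (5 * lam ^ 3 * (4 * lam)) :=
            Nat.mul_le_mul (by omega) (Nat.mul_le_mul_left _ (by omega))
        _ = 40 * lam ^ 5 := by ring)
  -- a stable radius
  obtain ⟨r, hr1, hr2⟩ := stable A ((3 * lam + 5) * (n * (2 * L + 2 * R))) (8 * (lam + 1) * n) (by
    have h1 : n ^ n < 2 ^ ((lam + 1) * n) := by
      rw [pow_mul]
      exact Nat.pow_lt_pow_left hpow' (by omega)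
    calc n ^ n * 10 ^ (8 * (lam + 1) * n) < 2 ^ ((lam + 1) * n) * 10 ^ (8 * (lam + 1) * n) :=
          Nat.mul_lt_mul_of_pos_right h1 (by positivity)
      _ = (2 * 10 ^ 8) ^ ((lam + 1) * n) := by
          rw [mul_pow, ← pow_mul]; congr 2; ring
      _ ≤ (11 ^ 8) ^ ((lam + 1) * n) := Nat.pow_le_pow_left (by norm_num) _
      _ = 11 ^ (8 * (lam + 1) * n) := by rw [← pow_mul]; congr 1; ring)
  refine ⟨r, T0, 1 / (16 * (lam : ℝ) ^ 4), 6 / (lam : ℝ) ^ 2, Eb, hr1, ?_⟩
  have hρ1 : 1 / (16 * (lam : ℝ) ^ 4) ≤ 1 := by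
    rw [div_le_one (by positivity)]
    have : (1 : ℝ) ≤ (lam : ℝ) ^ 4 := one_le_pow₀ (by linarith)
    linarith
  have hβn : 6 / (lam : ℝ) ^ 2 * n ≤ 6 / 40000 * n := by
    refine mul_le_mul_of_nonneg_right ?_ hnr.le
    rw [div_le_div_iff₀ (by positivity) (by norm_num)]
    have : (40000 : ℝ) ≤ (lam : ℝ) ^ 2 := by exact_mod_cast hl2
    linarith
  have hlβ : (lam : ℝ) * (6 / (lam : ℝ) ^ 2) ≤ 6 / 200 := by
    have h1 : (lam : ℝ) * (6 / (lam : ℝ) ^ 2) = 6 / lam := by
      field_simp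
    rw [h1, div_le_div_iff₀ (by positivity) (by norm_num)]
    linarith
  exact
    { hn := by omega
      spl := hEb
      hdn := by omega
      stab := hr2
      nd := by
        have h1 : (d : ℝ) / n * ((3 * lam + 5 : ℕ) : ℝ) ≤ 1 / 50 := by
          have h2 : ((3 * lam + 5 : ℕ) : ℝ) ≤ 4 * lam := by
            exact_mod_cast (show 3 * lam + 5 ≤ 4 * lam by omega)
          calc (d : ℝ) / n * ((3 * lam + 5 : ℕ) : ℝ) ≤ (d : ℝ) / n * (4 * lam) :=
                mul_le_mul_of_nonneg_left h2 (by positivity)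
            _ ≤ 1 / 50 := by
                rw [div_mul_eq_mul_div, div_le_div_iff₀ hnr (by norm_num)]
                have h3 : (lam : ℝ) * d * 200 ≤ lam ^ 2 * d := by
                  have : (0 : ℝ) ≤ lam * d := by positivity
                  nlinarith
                nlinarith
        have h2 : (10 : ℝ) / 11 ≤ (1 - (d : ℝ) / n) ^ (3 * lam + 5) := by
          have h3 := one_add_mul_le_pow (a := -((d : ℝ) / n)) (by
            have : (d : ℝ) / n ≤ 1 := by
              rw [div_le_one hnr]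
              exact_mod_cast (show d ≤ n by omega)
            linarith) (3 * lam + 5)
          rw [← sub_eq_add_neg] at h3
          refine le_trans ?_ h3
          have h4 : ((3 * lam + 5 : ℕ) : ℝ) * -((d : ℝ) / n) =
              -((d : ℝ) / n * ((3 * lam + 5 : ℕ) : ℝ)) := by ring
          rw [h4]
          linarith
        have h5 : (10 : ℝ) * (n : ℝ) ^ (3 * lam + 5) ≤ 11 * ((n - d : ℕ) : ℝ) ^ (3 * lam + 5) := by
          have h6 : ((n - d : ℕ) : ℝ) = (1 - (d : ℝ) / n) * n := by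
            rw [Nat.cast_sub (by omega)]
            field_simp
          rw [h6, mul_pow]
          have h7 : (0 : ℝ) ≤ (n : ℝ) ^ (3 * lam + 5) := by positivity
          nlinarith
        exact_mod_cast h5
      ρ1 := hρ1
      ρ2 := by
        rw [hT0]
        have h1 : (n : ℝ) ≤ 2 * ((n - d - 3 : ℕ) : ℝ) := by
          exact_mod_cast (show n ≤ 2 * (n - d - 3) by omega)
        have h2 : (n : ℝ) ≤ 2 * ((lam : ℝ) * ((m - 1 : ℕ) : ℝ)) := by exact_mod_cast hm4
        have h2' : (n : ℝ) ≤ 2 * ((lam : ℝ) * (m : ℝ)) := by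
          refine h2.trans ?_
          have : ((m - 1 : ℕ) : ℝ) ≤ m := by exact_mod_cast Nat.sub_le _ _
          nlinarith
        have h3 : m * m - m = m * (m - 1) := by
          rw [Nat.mul_sub, mul_one]
        rw [h3]
        push_cast [Nat.cast_mul]
        have h4 : (n : ℝ) * n ≤ (2 * ((lam : ℝ) * (m : ℝ))) * (2 * ((lam : ℝ) * ((m - 1 : ℕ) : ℝ))) :=
          mul_le_mul h2' h2 hnr.le (by positivity)
        have h5 : (n : ℝ) * (n * n) ≤ (2 * ((lam : ℝ) ^ 2 * d)) *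
            ((2 * ((lam : ℝ) * (m : ℝ))) * (2 * ((lam : ℝ) * ((m - 1 : ℕ) : ℝ)))) :=
          mul_le_mul hd3r h4 (by positivity) (by positivity)
        have h6 : (n : ℝ) * (n * n) * n ≤ (2 * ((lam : ℝ) ^ 2 * d)) *
            ((2 * ((lam : ℝ) * (m : ℝ))) * (2 * ((lam : ℝ) * ((m - 1 : ℕ) : ℝ)))) *
            (2 * ((n - d - 3 : ℕ) : ℝ)) :=
          mul_le_mul h5 h1 (by positivity) (by positivity)
        rw [div_mul_eq_mul_div, div_le_iff₀ (by positivity), one_mul]
        calc (n : ℝ) ^ 4 = (n : ℝ) * (n * n) * n := by ring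
          _ ≤ _ := h6
          _ = _ := by ring
      ρk := by
        refine expk _ hρ1 hpow' ?_
        have h1 : 1 / (16 * (lam : ℝ) ^ 4) * ((40 * lam ^ 5 : ℕ) : ℝ) = 5 / 2 * lam := by
          push_cast
          field_simp
          ring
        rw [h1]
        linarith
      hX1 := by
        rw [hT0]
        refine lt_of_le_of_lt (hnpow _ (2 * n + 320 * lam ^ 7) ?_) (hlt _ (by omega))
        have h1 : (lam + 1) * (40 * lam ^ 5 * (3 * lam + 5)) ≤ 320 * lam ^ 7 := by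
          calc (lam + 1) * (40 * lam ^ 5 * (3 * lam + 5)) ≤
                (2 * lam) * (40 * lam ^ 5 * (4 * lam)) :=
                Nat.mul_le_mul (by omega) (Nat.mul_le_mul_left _ (by omega))
            _ = 320 * lam ^ 7 := by ring
        have h2 : (lam + 1) * (m + 40 * lam ^ 5 * (3 * lam + 5)) =
            lam * m + m + (lam + 1) * (40 * lam ^ 5 * (3 * lam + 5)) := by ring
        rw [h2]
        omega
      β0 := by positivity
      βg := by
        have h1 : ((3 * (d + d) : ℕ) : ℝ) = 6 * d := by push_cast; ring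
        rw [h1, div_mul_eq_mul_div, le_div_iff₀ (by positivity)]
        nlinarith
      hbt := by omega
      hnum := by omega
      hexp := by
        have h1 : ((2 * (τ + τ) : ℕ) : ℝ) ≤ 4 / 59 * n := by
          have h2 : (59 : ℝ) * τ ≤ n := by exact_mod_cast hτ1
          push_cast
          linarith
        have h3 : 121 / 100 * (n : ℝ) * (1 / 512 + lam * (6 / (lam : ℝ) ^ 2)) ≤
            121 / 100 * n * (1 / 512 + 6 / 200) :=
          mul_le_mul_of_nonneg_left (by linarith) (by positivity)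
        linarith
      τ1 := by omega
      τn := by omega
      hv := by
        have h1 : (n : ℝ) ≤ 60 * τ := by exact_mod_cast (show n ≤ 60 * τ by omega)
        have h2 : (3600 : ℝ) ≤ (6 / 5) ^ 45 := by norm_num
        calc (n : ℝ) * n ≤ (60 * τ) * (60 * τ) := mul_le_mul h1 h1 hnr.le (by positivity)
          _ = τ * τ * 3600 := by ring
          _ ≤ τ * τ * (6 / 5) ^ 45 := mul_le_mul_of_nonneg_left h2 (by positivity)
      hX2 := by
        intro s hs
        have h1 : n ^ (s + (45 + 45) * m) ≤ 2 ^ (92 * n) := by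
          apply hnpow
          have h2 : (lam + 1) * (s + (45 + 45) * m) = s * (lam + 1) + 90 * (lam * m) + 90 * m := by
            ring
          rw [h2]
          omega
        calc n ^ (s + (45 + 45) * m) * 2 ^ (n * (45 + 45)) ≤ 2 ^ (92 * n) * 2 ^ (n * (45 + 45)) :=
              Nat.mul_le_mul_right _ h1
          _ = 2 ^ (182 * n) := by rw [← pow_add]; congr 1; ring
          _ < X.card := hlt _ (by omega) }

end Pool.Agent.SymDiam.EX
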