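import Pool.Agent.Lib.MP_7b6720_al.LB.EX.Exp

set_option autoImplicit false

/-!
# Exponential balls, 6: one commutator step
-/

namespace Pool.Agent.SymDiam.EX

open Equiv Finset Pool.Agent.SymDiam.H44 Pool.Agent.SymDiam.LB

/-- the conjugators `h_i` and `h_i x` -/
def dbl {n k : ℕ} (hs : Fin k → Perm (Fin n)) (x : Perm (Fin n)) : Fin (k + k) → Perm (Fin n) :=
  Fin.append hs (fun i => hs i * x)

open Classical in
/-- the points of large classes are controlled by few points -/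
theorem classes {n k b : ℕ} (w : Perm (Fin n)) (hs : Fin k → Perm (Fin n))
    {blk : Fin n → Finset (Fin n)}
    (link : ∀ p, ∀ q ∈ blk p, ∀ g : Perm (Fin n),
      (∀ i, g * cj w (hs i) = cj w (hs i) * g) → (g q = q ↔ g p = p))
    (x : Perm (Fin n))
    (hSm : 5 * (univ.filter fun p => ∃ C, Clx blk x C ∧ p ∈ C ∧ C.card ≤ b).card ≤ n) :
    ∃ T : Finset (Fin n), T.card * (b + 1) ≤ n ∧ ∀ g : Perm (Fin n),
      (∀ i, g * cj w (dbl hs x i) = cj w (dbl hs x i) * g) → (∀ p ∈ T, g p = p) →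
        5 * g.support.card ≤ n := by
  set Cm : Perm (Fin n) → Prop := fun g =>
    ∀ i, g * cj w (dbl hs x i) = cj w (dbl hs x i) * g with hCm
  set cl : Fin n → Finset (Fin n) := fun p =>
    univ.filter fun q => ∀ g, Cm g → (g q = q ↔ g p = p) with hcl
  have hself : ∀ p, p ∈ cl p := by
    intro p
    rw [hcl]
    rw [mem_filter]
    exact ⟨mem_univ _, fun _ _ => Iff.rfl⟩
  have heq : ∀ p q, q ∈ cl p → cl q = cl p := by
    intro p q hq
    rw [hcl] at hq ⊢
    simp only [mem_filter, mem_univ, true_and] at hq ⊢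
    refine filter_congr fun s _ => ?_
    constructor
    · intro h g hg
      rw [h g hg, hq g hg]
    · intro h g hg
      rw [h g hg, hq g hg]
  have hcom1 : ∀ g, Cm g → ∀ i, g * cj w (hs i) = cj w (hs i) * g := by
    intro g hg i
    have h1 := hg (Fin.castAdd k i)
    unfold dbl at h1
    rw [Fin.append_left] at h1
    exact h1
  have hcom2 : ∀ g, Cm g → ∀ i, (x * g * x⁻¹) * cj w (hs i) = cj w (hs i) * (x * g * x⁻¹) := by
    intro g hg i
    have h1 := hg (Fin.natAdd k i)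
    unfold dbl at h1
    rw [Fin.append_right] at h1
    have h2 : cj w (hs i * x) = x⁻¹ * cj w (hs i) * x := by
      unfold cj; group
    rw [h2] at h1
    calc (x * g * x⁻¹) * cj w (hs i) = x * (g * (x⁻¹ * cj w (hs i) * x)) * x⁻¹ := by group
      _ = x * ((x⁻¹ * cj w (hs i) * x) * g) * x⁻¹ := by rw [h1]
      _ = cj w (hs i) * (x * g * x⁻¹) := by group
  have hclosed : ∀ p, Clx blk x (cl p) := by
    intro p q hq
    have hq' : ∀ g, Cm g → (g q = q ↔ g p = p) := by
      rw [hcl] at hq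
      simpa using hq
    refine ⟨?_, ?_⟩
    · intro s hs'
      rw [hcl]
      simp only [mem_filter, mem_univ, true_and]
      intro g hg
      rw [link q s hs' g (hcom1 g hg), hq' g hg]
    · intro s hs'
      rw [hcl]
      simp only [mem_filter, mem_univ, true_and]
      intro g hg
      have h1 := link (x q) s hs' (x * g * x⁻¹) (hcom2 g hg)
      have h2 : x⁻¹ (x q) = q := Equiv.symm_apply_apply x q
      simp only [Perm.mul_apply, h2] at h1
      rw [← hq' g hg]
      have h3 : (x (g (x⁻¹ s)) = s) ↔ g (x⁻¹ s) = x⁻¹ s := by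
        rw [Perm.eq_inv_iff_eq]
      have h4 : (x (g q) = x q) ↔ g q = q := x.injective.eq_iff
      rw [← h3, h1, h4]
  set Sm : Finset (Fin n) := univ.filter fun p => ∃ C, Clx blk x C ∧ p ∈ C ∧ C.card ≤ b with hSmd
  have hbig : ∀ p, p ∉ Sm → b + 1 ≤ (cl p).card := by
    intro p hp
    by_contra hcon
    apply hp
    rw [hSmd, mem_filter]
    exact ⟨mem_univ _, cl p, hclosed p, hself p, by omega⟩
  set rep : Fin n → Fin n := fun p => (cl p).min' ⟨p, hself p⟩ with hrep
  have hrep1 : ∀ p, rep p ∈ cl p := fun p => min'_mem _ _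
  have hrep2 : ∀ p q, q ∈ cl p → rep q = rep p := by
    intro p q hq
    rw [hrep]
    simp only [heq p q hq]
  refine ⟨Smᶜ.image rep, ?_, ?_⟩
  · have h1 : ∀ t ∈ Smᶜ.image rep, b + 1 ≤ (univ.filter fun q => rep q = t).card := by
      intro t ht
      obtain ⟨p, hp, rfl⟩ := mem_image.1 ht
      refine (hbig p (mem_compl.1 hp)).trans (card_le_card ?_)
      intro q hq
      exact mem_filter.2 ⟨mem_univ _, hrep2 p q hq⟩
    calc (Smᶜ.image rep).card * (b + 1) = ∑ _t ∈ Smᶜ.image rep, (b + 1) := by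
          rw [sum_const, smul_eq_mul]
      _ ≤ ∑ t ∈ Smᶜ.image rep, (univ.filter fun q => rep q = t).card := sum_le_sum h1
      _ = ((Smᶜ.image rep).biUnion fun t => univ.filter fun q => rep q = t).card := by
          rw [card_biUnion]
          intro a _ c _ hac
          refine disjoint_left.2 fun q hq hq' => ?_
          exact hac ((mem_filter.1 hq).2.symm.trans (mem_filter.1 hq').2)
      _ ≤ n := by
          refine (card_le_univ _).trans ?_
          rw [Fintype.card_fin]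
  · intro g hg hT
    refine le_trans (Nat.mul_le_mul_left _ (card_le_card ?_)) hSm
    intro p hp
    by_contra hpS
    have h1 : g (rep p) = rep p := hT _ (mem_image_of_mem _ (mem_compl.2 hpS))
    have h2 := hrep1 p
    rw [hcl] at h2
    simp only [mem_filter, mem_univ, true_and] at h2
    exact (Perm.mem_support.1 hp) ((h2 g hg).1 h1)

/-- one commutator step with given conjugators -/
theorem cstep2 {n K m L l R' : ℕ} (hn : 1 ≤ n) {A : Set (Perm (Fin n))}
    (X : Finset (Perm (Fin n))) (hXb : ∀ x ∈ X, InBall A L x)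
    (w : Perm (Fin n)) (hwb : InBall A l w) (hwm : m ≤ w.support.card)
    (ks : Fin K → Perm (Fin n)) (hks : ∀ i, InBall A R' (ks i)) (T : Finset (Fin n))
    (hT : ∀ g : Perm (Fin n), (∀ i, g * cj w (ks i) = cj w (ks i) * g) → (∀ p ∈ T, g p = p) →
      5 * g.support.card ≤ n)
    (hX : n ^ (T.card + K * m) * 2 ^ (n * K) < X.card) :
    ∃ u : Perm (Fin n), u ≠ 1 ∧ InBall A (2 * l + 4 * R' + 4 * L) u ∧
      (5 * u.support.card ≤ n ∨ u.support.card + m ≤ w.support.card + 1) := by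
  classical
  have hsup : ∀ i, (cj w (ks i)).support.card = w.support.card := by
    intro i
    unfold cj
    have := Perm.card_support_conj (σ := (ks i)⁻¹) (τ := w)
    simpa using this
  have hal : ∀ i, ∃ D : Finset (Fin n), D ⊆ (cj w (ks i)).support ∧ D.card = m ∧
      (D.filter fun x => cj w (ks i) x ∉ D).card ≤ 1 := fun i =>
    almost (cj w (ks i)) m (by rw [hsup]; exact hwm)
  choose D hD1 hD2 hD3 using hal
  set E : Finset (Fin n) := T ∪ univ.biUnion D with hE
  have hEc : E.card ≤ T.card + K * m := by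
    have h5 : (univ.biUnion D).card ≤ K * m := by
      refine card_biUnion_le.trans ?_
      rw [sum_congr rfl fun i _ => hD2 i, sum_const, card_univ, Fintype.card_fin, smul_eq_mul]
    calc E.card ≤ T.card + (univ.biUnion D).card := card_union_le _ _
      _ ≤ T.card + K * m := Nat.add_le_add_left h5 _
  obtain ⟨x, hx, y, hy, hne, hfix, hF⟩ := pigeon X E
    (fun i => univ.filter fun p => cj w (ks i) p = p)
    (lt_of_le_of_lt (Nat.mul_le_mul_right _ (Nat.pow_le_pow_right hn hEc)) hX)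
  set g : Perm (Fin n) := x⁻¹ * y with hg
  have hgb : InBall A (2 * L) g := ((hXb x hx).inv.mul (hXb y hy)).mono (by omega)
  by_cases hcon : ∀ i, g * cj w (ks i) = cj w (ks i) * g
  · exact ⟨g, hne, hgb.mono (by omega), Or.inl (hT g hcon fun p hp =>
      hfix p (by rw [hE]; exact mem_union_left _ hp))⟩
  · push Not at hcon
    obtain ⟨i, hi⟩ := hcon
    refine ⟨(cj w (ks i))⁻¹ * g⁻¹ * cj w (ks i) * g, ?_, ?_, Or.inr ?_⟩
    · intro h5
      apply hi
      have h6 : (cj w (ks i))⁻¹ * (g⁻¹ * (cj w (ks i) * g)) = 1 := by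
        rw [← h5]; group
      have h7 := inv_mul_eq_one.1 h6
      calc g * cj w (ks i) = g * (g⁻¹ * (cj w (ks i) * g)) := by rw [← h7]
        _ = cj w (ks i) * g := by group
    · have h5 := hwb.cj (hks i)
      exact (((h5.inv.mul hgb.inv).mul h5).mul hgb).mono (by omega)
    · have h5 := comm_supp (cj w (ks i)) g (D i) (hD1 i) (hD2 i) (hD3 i) (hF i) (fun p hp =>
        hfix p (by rw [hE]; exact mem_union_right _ (mem_biUnion.2 ⟨i, mem_univ _, hp⟩)))
      rw [hsup] at h5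
      exact h5

/-- the numerical conditions -/
structure Num (n L R t d g k r b m k0 τ : ℕ) (A : Set (Perm (Fin n)))
    (X : Finset (Perm (Fin n))) (T0 : Finset (Fin n)) (ρ β : ℝ)
    (Eb : Finset (Fin n) → Finset (Fin n)) : Prop where
  hn : 4 ≤ n
  spl : Spl A t d (2 * L + 2 * R) (n * (2 * L + 2 * R)) Eb
  hdn : d < n
  stab : 10 * (ball A (r + t * (n * (2 * L + 2 * R)))).card ≤ 11 * (ball A r).card
  nd : 10 * n ^ t ≤ 11 * (n - d) ^ t
  ρ1 : ρ ≤ 1
  ρ2 : ρ * (n : ℝ) ^ 4 ≤ ((g * ((T0.card * T0.card - T0.card) * (n - d - 3)) : ℕ) : ℝ)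
  ρk : (1 - ρ) ^ k * (n : ℝ) ^ 2 < 1
  hX1 : n ^ (T0.card + k * t) < X.card
  β0 : 0 ≤ β
  βg : ((3 * (d + g) : ℕ) : ℝ) ≤ β * n
  hbt : 3 * (b + 1) + 2 ≤ t
  hnum : 512 * t + 64 * (2 * (τ + τ)) ≤ 7 * n
  hexp : ((2 * (τ + τ) : ℕ) : ℝ) + β * n + 121 / 100 * n * (1 / 512 + b * β) ≤ n / 5
  τ1 : 1 ≤ τ
  τn : τ ≤ n
  hv : (n : ℝ) * n ≤ τ * τ * (6 / 5) ^ k0
  hX2 : ∀ s : ℕ, s * (b + 1) ≤ n → n ^ (s + (k0 + k0) * m) * 2 ^ (n * (k0 + k0)) < X.card

/-- one step -/
theorem ostep {n L R t d g k r b m k0 τ l : ℕ} {A : Set (Perm (Fin n))}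
    {W : Perm (Fin n) → ℝ} (hW : Mixing n 4 W) (hWb : ∀ h, W h ≠ 0 → InBall A R h)
    {X : Finset (Perm (Fin n))} (hXb : ∀ x ∈ X, InBall A L x) {T0 : Finset (Fin n)} {ρ β : ℝ}
    {Eb : Finset (Fin n) → Finset (Fin n)} (N : Num n L R t d g k r b m k0 τ A X T0 ρ β Eb)
    (w : Perm (Fin n)) (hwb : InBall A l w) (hw : n ≤ 5 * w.support.card)
    (hwm : m ≤ w.support.card) :
    ∃ u : Perm (Fin n), u ≠ 1 ∧ InBall A (2 * l + 4 * (R + r) + 4 * L) u ∧
      (5 * u.support.card ≤ n ∨ u.support.card + m ≤ w.support.card + 1) := by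
  classical
  have hn := N.hn
  obtain ⟨hs, h1, blk, hb, link⟩ := blocks (by omega) (hW.mono (by omega)) w
    (by exact_mod_cast hw) k0 τ τ N.τ1 N.τn N.hv
  have hflat : ∀ D, Good Eb D → D.card ≤ t → ∀ S : Finset (Fin n × Fin n),
      S.image Prod.fst ⊆ D → ((agr A r S).card : ℝ) * (n : ℝ) ^ S.card ≤
        121 / 100 * (ball A r).card := by
    intro D hD hDt S hS
    have h2 := flatR (by omega) N.spl N.hdn N.stab N.nd hD hDt S hS
    have h3 : (100 : ℝ) * (((agr A r S).card : ℝ) * (n : ℝ) ^ S.card) ≤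
        121 * (ball A r).card := by exact_mod_cast h2
    linarith
  have hbad : ∀ S, Good Eb S → Cl blk S → S.card + 2 ≤ t →
      ((univ.filter fun q => q ∉ S ∧ ¬ Good Eb (S ∪ blk q)).card : ℝ) ≤ β * n := by
    intro S hSg hSc hSt
    have h2 := bgood hn hW hWb X hXb N.spl T0 ρ N.ρ1 N.ρ2 N.ρk N.hX1 hb S hSt hSg hSc
    refine le_trans ?_ N.βg
    exact_mod_cast h2
  obtain ⟨x, hx, hSm⟩ := explore (b := b) (by omega) hb β N.β0 hflat hbad N.hbt N.hnum
  have hSm5 : 5 * (univ.filter fun p => ∃ C, Clx blk x C ∧ p ∈ C ∧ C.card ≤ b).card ≤ n := by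
    have h2 := hSm.trans N.hexp
    have h3 : (5 : ℝ) * ((univ.filter fun p => ∃ C, Clx blk x C ∧ p ∈ C ∧ C.card ≤ b).card : ℝ) ≤
        n := by linarith
    exact_mod_cast h3
  obtain ⟨T, hT1, hT2⟩ := classes w hs link x hSm5
  refine cstep2 (by omega) X hXb w hwb hwm (dbl hs x) (fun i => ?_) T hT2 (N.hX2 T.card hT1)
  unfold dbl
  refine Fin.addCases (fun j => ?_) (fun j => ?_) i
  · rw [Fin.append_left]
    exact (hWb _ (h1 j)).mono (by omega)
  · rw [Fin.append_right]
    exact (hWb _ (h1 j)).mul hx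

/-- iterated steps -/
theorem oiter {n L R t d g k r b m k0 τ : ℕ} {A : Set (Perm (Fin n))}
    {W : Perm (Fin n) → ℝ} (hW : Mixing n 4 W) (hWb : ∀ h, W h ≠ 0 → InBall A R h)
    {X : Finset (Perm (Fin n))} (hXb : ∀ x ∈ X, InBall A L x) {T0 : Finset (Fin n)} {ρ β : ℝ}
    {Eb : Finset (Fin n) → Finset (Fin n)} (N : Num n L R t d g k r b m k0 τ A X T0 ρ β Eb)
    (hm1 : 1 ≤ m) (hmn : 5 * m ≤ n)
    (a : Perm (Fin n)) (ha : InBall A 1 a) (ha1 : a ≠ 1) (s : ℕ) :
    ∃ u : Perm (Fin n), u ≠ 1 ∧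
      InBall A (2 ^ s * (1 + 4 * (R + r) + 4 * L) - (4 * (R + r) + 4 * L)) u ∧
      (5 * u.support.card ≤ n ∨ u.support.card + s * (m - 1) ≤ n) := by
  induction s with
  | zero =>
      refine ⟨a, ha1, ha.mono (by omega), Or.inr ?_⟩
      have := card_le_univ a.support
      rw [Fintype.card_fin] at this
      omega
  | succ s ih =>
      obtain ⟨u, hu1, hub, hu⟩ := ih
      have h5 : 1 ≤ 2 ^ s := Nat.one_le_pow _ _ (by omega)
      have h6 : 1 * (1 + 4 * (R + r) + 4 * L) ≤ 2 ^ s * (1 + 4 * (R + r) + 4 * L) :=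
        Nat.mul_le_mul_right _ h5
      have h7 : 2 ^ (s + 1) * (1 + 4 * (R + r) + 4 * L) =
          2 * (2 ^ s * (1 + 4 * (R + r) + 4 * L)) := by ring
      by_cases h100 : 5 * u.support.card ≤ n
      · exact ⟨u, hu1, hub.mono (by omega), Or.inl h100⟩
      · have hu' : u.support.card + s * (m - 1) ≤ n := by
          rcases hu with hu | hu
          · exact absurd hu h100
          · exact hu
        obtain ⟨v, hv1, hvb, hv⟩ := ostep hW hWb hXb N u hub (by omega) (by omega)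
        refine ⟨v, hv1, hvb.mono (by omega), ?_⟩
        rcases hv with hv | hv
        · exact Or.inl hv
        · right
          have h8 : (s + 1) * (m - 1) = s * (m - 1) + (m - 1) := by ring
          rw [h8]; omega

/-- a short nonidentity element of small support -/
theorem osmall {n L R t d g k r b m k0 τ : ℕ} {A : Set (Perm (Fin n))}
    {W : Perm (Fin n) → ℝ} (hW : Mixing n 4 W) (hWb : ∀ h, W h ≠ 0 → InBall A R h)
    {X : Finset (Perm (Fin n))} (hXb : ∀ x ∈ X, InBall A L x) {T0 : Finset (Fin n)} {ρ β : ℝ}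
    {Eb : Finset (Fin n) → Finset (Fin n)} (N : Num n L R t d g k r b m k0 τ A X T0 ρ β Eb)
    (hm1 : 1 ≤ m) (hmn : 5 * m ≤ n)
    (a : Perm (Fin n)) (ha : InBall A 1 a) (ha1 : a ≠ 1) (s : ℕ) (hs : n ≤ s * (m - 1)) :
    ∃ u : Perm (Fin n), u ≠ 1 ∧ InBall A (2 ^ s * (1 + 4 * (R + r) + 4 * L)) u ∧
      5 * u.support.card ≤ n := by
  obtain ⟨u, h1, h2, h3⟩ := oiter hW hWb hXb N hm1 hmn a ha ha1 s
  exact ⟨u, h1, h2.mono (by omega), by omega⟩

end Pool.Agent.SymDiam.EX
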